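import Pool.Agent.Lib.MP_4a593f_gt.D8.Cl2

/-! Orthogonality of the products: `∑_ij (gs s)_ij (gs t)_ij = 16` if `s = t`, else `0`.
`(gs s)ᵀ * gs s = 1` (each `gam a` is orthogonal).  For `s ≠ t` the matrix `M = (gs s)ᵀ * gs t` is `±` a
product of gammas which anticommutes with some `gam a` (if `|s Δ t|` is even take `a ∈ s Δ t`, if odd
take `a ∉ s Δ t`), so `tr M = tr (gam a M gam a⁻¹) = -tr M`.  Alternatively: the bilinear form
`B(ψ, χ) = ∑_ij (Th ψ)_ij (Th χ)_ij` satisfies `B(l a ψ, χ) = -B(ψ, l a χ)` (`Th_l`, `gam_tr`),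
so `B(l a ψ, l a χ) = B(ψ, χ)`; reduce `B(e_s, e_t)` to `± B(vac, e_{s Δ t})` and show
`tr (gs u) = 0` for `u ≠ ∅`: `gs u = gam a * gs u'`. -/

open scoped BigOperators

namespace HopfD8

open HopfBig HopfN2 HopfQ4

/-- the sign -/
private noncomputable def c5e (a : Fin 8) (s : Finset (Fin 8)) : ℝ :=
  (if a ∈ s then -1 else 1) * (-1) ^ s.card

private theorem c5_list (a : Fin 8) (l : List (Fin 8)) (hl : l.Nodup) :
    gam a * (l.map gam).prod =
      ((if a ∈ l then (-1 : ℝ) else 1) * (-1) ^ l.length) • ((l.map gam).prod * gam a) := by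
  induction l with
  | nil => simp
  | cons b l ih =>
    have hl' := List.nodup_cons.mp hl
    have ih' := ih hl'.2
    rw [List.map_cons, List.prod_cons, List.length_cons]
    by_cases h : a = b
    · subst h
      rw [if_neg hl'.1] at ih'
      rw [if_pos List.mem_cons_self, mul_assoc (gam a) (l.map gam).prod, pow_succ]
      rw [one_mul] at ih'
      have e : (l.map gam).prod * gam a = ((-1 : ℝ) ^ l.length) • (gam a * (l.map gam).prod) := by
        rw [ih', smul_smul, ← mul_pow]
        simp
      rw [e, Matrix.mul_smul, smul_smul]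
      have e2 : (-1 : ℝ) * ((-1) ^ l.length * -1) * (-1) ^ l.length = 1 := by
        have : ((-1 : ℝ) ^ l.length) * (-1) ^ l.length = 1 := by rw [← mul_pow]; simp
        linear_combination this
      rw [e2, one_smul]
    · have hmem : (a ∈ b :: l) ↔ a ∈ l := by
        rw [List.mem_cons]
        exact ⟨fun h1 => h1.resolve_left h, Or.inr⟩
      rw [← mul_assoc, gam_anti h, neg_mul, mul_assoc, ih', Matrix.mul_smul, ← mul_assoc, pow_succ,
        ← neg_smul]
      congr 1
      by_cases h2 : a ∈ l
      · rw [if_pos h2, if_pos (hmem.2 h2)]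
        ring
      · rw [if_neg h2, if_neg (fun h3 => h2 (hmem.1 h3))]
        ring

private theorem c5_gs (a : Fin 8) (s : Finset (Fin 8)) :
    gam a * gs s = c5e a s • (gs s * gam a) := by
  unfold gs c5e
  rw [c5_list a _ (Finset.sort_nodup _ _)]
  simp only [Finset.mem_sort, Finset.length_sort]

private theorem c5_gsT (a : Fin 8) (s : Finset (Fin 8)) :
    (gs s).transpose * gam a = c5e a s • (gam a * (gs s).transpose) := by
  have h := congrArg Matrix.transpose (c5_gs a s)
  rw [Matrix.transpose_mul, Matrix.transpose_smul, Matrix.transpose_mul, gam_tr] at h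
  rw [Matrix.mul_neg, Matrix.neg_mul, smul_neg, neg_inj] at h
  exact h

private theorem c5e_sq (a : Fin 8) (s : Finset (Fin 8)) : c5e a s * c5e a s = 1 := by
  unfold c5e
  have : ((-1 : ℝ) ^ s.card) * (-1) ^ s.card = 1 := by rw [← mul_pow]; simp
  split_ifs
  · linear_combination this
  · linear_combination this

private theorem c5_orth_list (l : List (Fin 8)) :
    ((l.map gam).prod).transpose * (l.map gam).prod = 1 := by
  induction l with
  | nil => simp
  | cons b l ih =>
    rw [List.map_cons, List.prod_cons, Matrix.transpose_mul, gam_tr, mul_assoc, ← mul_assoc (-gam b),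
      neg_mul, gam_sq, neg_neg, one_mul, ih]

private theorem c5_orth (s : Finset (Fin 8)) : (gs s).transpose * gs s = 1 := c5_orth_list _

private theorem c5_tr_zero (a : Fin 8) (s t : Finset (Fin 8)) (h : c5e a s * c5e a t = -1) :
    ((gs s).transpose * gs t).trace = 0 := by
  have e1 : ((gs s).transpose * gs t * gam a * gam a).trace =
      -((gs s).transpose * gs t).trace := by
    rw [mul_assoc _ (gam a), gam_sq, mul_neg, mul_one, Matrix.trace_neg]
  have e2 : ((gs s).transpose * gs t * gam a * gam a).trace =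
      (gam a * ((gs s).transpose * gs t) * gam a).trace := by
    rw [Matrix.trace_mul_comm, ← mul_assoc]
  have e3 : gam a * ((gs s).transpose * gs t) =
      (c5e a s * c5e a t) • ((gs s).transpose * gs t * gam a) := by
    have h1 : gam a * (gs s).transpose = c5e a s • ((gs s).transpose * gam a) := by
      rw [c5_gsT, smul_smul, c5e_sq, one_smul]
    rw [← mul_assoc, h1, Matrix.smul_mul, mul_assoc, c5_gs, Matrix.mul_smul, smul_smul, mul_assoc]
  rw [e3, h, neg_one_smul, neg_mul, Matrix.trace_neg, mul_assoc _ (gam a), gam_sq, mul_neg, mul_one,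
    Matrix.trace_neg, neg_neg] at e2
  linarith

private theorem c5_exists {s t : Finset (Fin 8)} (h : s ≠ t) : ∃ a, c5e a s * c5e a t = -1 := by
  classical
  by_cases hpar : Even (s.card + t.card)
  · obtain ⟨a, ha⟩ : ∃ a, ¬(a ∈ s ↔ a ∈ t) := by
      by_contra hcon
      push Not at hcon
      exact h (Finset.ext hcon)
    refine ⟨a, ?_⟩
    have hp : ((-1 : ℝ) ^ s.card) * (-1) ^ t.card = 1 := by
      rw [← pow_add]
      exact hpar.neg_one_pow
    unfold c5e
    by_cases h1 : a ∈ s
    · have h2 : a ∉ t := fun h2 => ha ⟨fun _ => h2, fun _ => h1⟩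
      rw [if_pos h1, if_neg h2]
      linear_combination -hp
    · have h2 : a ∈ t := by
        by_contra h2
        exact ha ⟨fun h3 => absurd h3 h1, fun h3 => absurd h3 h2⟩
      rw [if_neg h1, if_pos h2]
      linear_combination -hp
  · obtain ⟨a, ha⟩ : ∃ a, (a ∈ s ↔ a ∈ t) := by
      by_contra hcon
      push Not at hcon
      have ht : t = sᶜ := by
        ext a
        rw [Finset.mem_compl]
        have := hcon a
        tauto
      apply hpar
      rw [ht, Finset.card_compl, Fintype.card_fin]
      have h8 : s.card ≤ 8 := by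
        have := Finset.card_le_univ s
        simpa using this
      have : s.card + (8 - s.card) = 8 := by omega
      rw [this]
      decide
    refine ⟨a, ?_⟩
    have hp : ((-1 : ℝ) ^ s.card) * (-1) ^ t.card = -1 := by
      rw [← pow_add]
      exact (Nat.not_even_iff_odd.1 hpar).neg_one_pow
    unfold c5e
    by_cases h1 : a ∈ s
    · rw [if_pos h1, if_pos (ha.1 h1)]
      linear_combination hp
    · rw [if_neg h1, if_neg (fun h2 => h1 (ha.2 h2))]
      linear_combination hp

private theorem c5_trace (s t : Finset (Fin 8)) :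
    ((gs s).transpose * gs t).trace = if s = t then 16 else 0 := by
  split_ifs with h
  · subst h
    rw [c5_orth, Matrix.trace_one]
    simp [Fintype.card_sum]
  · obtain ⟨a, ha⟩ := c5_exists h
    exact c5_tr_zero a s t ha

theorem Th_inner (ψ χ : Fk 8) : ∑ i, ∑ j, Th ψ i j * Th χ i j = 16 * inner ℝ ψ χ := by
  have e1 : ∑ i, ∑ j, Th ψ i j * Th χ i j = ((Th ψ).transpose * Th χ).trace := by
    rw [Finset.sum_comm]
    simp only [Matrix.trace, Matrix.diag, Matrix.mul_apply, Matrix.transpose_apply]
  have e2 : ∀ φ : Fk 8, Th φ = ∑ s, φ s • gs s := fun φ => rfl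
  rw [e1, e2, e2, Matrix.transpose_sum, Finset.sum_mul, Matrix.trace_sum]
  have e3 : ∀ s, ((ψ s • gs s).transpose * ∑ t, χ t • gs t).trace = 16 * (ψ s * χ s) := by
    intro s
    rw [Matrix.transpose_smul, Matrix.smul_mul, Finset.mul_sum, Matrix.trace_smul,
      Matrix.trace_sum]
    have e4 : ∀ t, ((gs s).transpose * χ t • gs t).trace = if s = t then χ t * 16 else 0 := by
      intro t
      rw [Matrix.mul_smul, Matrix.trace_smul, c5_trace]
      split_ifs <;> simp
    simp only [e4, Finset.sum_ite_eq, Finset.mem_univ, if_true, smul_eq_mul]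
    ring
  rw [Finset.sum_congr rfl fun s _ => e3 s, ← Finset.mul_sum]
  congr 1
  rw [PiLp.inner_apply]
  exact Finset.sum_congr rfl fun s _ => by simp [mul_comm]

end HopfD8
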