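import Pool.Agent.Lib.MP_4a593f_gt.D8.Cl7

/-! Balanced families: for each `s` the component `(wdg L (wdg L vac)) s` is a `Four` function of `L`
(`wdg L (wdg L vac) = (1/4) ∑ L a b L c d cr a cr b cr c cr d vac`, and
`t a b c d = (cr a (cr b (cr c (cr d vac)))) s / 4` is totally antisymmetric by `cr_cr`), so
`∑ wdg (N i) (wdg (N i) vac) = ∑ wdg (P j) (wdg (P j) vac)`; then `AL_sq`. -/

open scoped BigOperators

namespace HopfD8

open HopfBig HopfN2 HopfQ4

private theorem cl8_wdg_apply {n : ℕ} (L : Mat n) (f : Fk n) :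
    wdg L f = (1 / 2 : ℝ) • ∑ a, ∑ b, L a b • cr a (cr b f) := by
  simp only [wdg, LinearMap.coe_mk, AddHom.coe_mk, LinearMap.smul_apply,
    LinearMap.sum_apply, LinearMap.comp_apply]

private theorem cl8_four (s : Finset (Fin 8)) :
    Four (fun L : Mat 8 => (wdg L (wdg L (vac 8))) s) := by
  refine ⟨fun a b c d => (1 / 4 : ℝ) * (cr a (cr b (cr c (cr d (vac 8))))) s, ⟨?_, ?_, ?_⟩, ?_⟩
  · intro a b c d
    simp only
    rw [cr_cr b a, PiLp.neg_apply]
    ring
  · intro a b c d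
    simp only
    rw [cr_cr c b, map_neg, PiLp.neg_apply]
    ring
  · intro a b c d
    simp only
    rw [cr_cr d c, map_neg, map_neg, PiLp.neg_apply]
    ring
  · intro L _
    simp only
    have h1 : wdg L (wdg L (vac 8)) = (1 / 4 : ℝ) • ∑ a, ∑ b, ∑ c, ∑ d,
        (L a b * L c d) • cr a (cr b (cr c (cr d (vac 8)))) := by
      rw [cl8_wdg_apply L (wdg L (vac 8)), cl8_wdg_apply L (vac 8)]
      simp only [map_smul, map_sum, Finset.smul_sum, smul_smul]
      refine Finset.sum_congr rfl fun a _ => Finset.sum_congr rfl fun b _ =>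
        Finset.sum_congr rfl fun c _ => Finset.sum_congr rfl fun d _ => ?_
      congr 1
      ring
    rw [h1]
    simp only [PiLp.smul_apply, WithLp.ofLp_sum, Finset.sum_apply, smul_eq_mul, Finset.mul_sum]
    refine Finset.sum_congr rfl fun a _ => Finset.sum_congr rfl fun b _ =>
      Finset.sum_congr rfl fun c _ => Finset.sum_congr rfl fun d _ => ?_
    ring

theorem AL_bal {m : ℕ} {N P : Fin m → Mat 8} (h : Bal N P) :
    ∑ i, AL (N i) * AL (N i) - ∑ j, AL (P j) * AL (P j) =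
      (-(1 / 4 : ℝ) * (∑ i, ip (N i) (N i) - ∑ j, ip (P j) (P j))) • (1 : M16) := by
  have hw : ∑ i, wdg (N i) (wdg (N i) (vac 8)) = ∑ j, wdg (P j) (wdg (P j) (vac 8)) := by
    ext s
    have := h.bal _ (cl8_four s)
    simpa only [WithLp.ofLp_sum, Finset.sum_apply] using this
  have e1 : ∑ i, AL (N i) * AL (N i) = (1 / 4 : ℝ) • Th (∑ i, wdg (N i) (wdg (N i) (vac 8))) -
      ((1 / 4 : ℝ) * ∑ i, ip (N i) (N i)) • (1 : M16) := by
    rw [map_sum, Finset.smul_sum, Finset.mul_sum, Finset.sum_smul, ← Finset.sum_sub_distrib]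
    exact Finset.sum_congr rfl fun i _ => AL_sq (h.skN i)
  have e2 : ∑ j, AL (P j) * AL (P j) = (1 / 4 : ℝ) • Th (∑ j, wdg (P j) (wdg (P j) (vac 8))) -
      ((1 / 4 : ℝ) * ∑ j, ip (P j) (P j)) • (1 : M16) := by
    rw [map_sum, Finset.smul_sum, Finset.mul_sum, Finset.sum_smul, ← Finset.sum_sub_distrib]
    exact Finset.sum_congr rfl fun i _ => AL_sq (h.skP i)
  rw [e1, e2, hw]
  have e3 : (-(1 / 4 : ℝ) * (∑ i, ip (N i) (N i) - ∑ j, ip (P j) (P j))) =
      (1 / 4 : ℝ) * ∑ j, ip (P j) (P j) - (1 / 4 : ℝ) * ∑ i, ip (N i) (N i) := by ring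
  rw [e3, sub_smul]
  abel

end HopfD8
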