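import Pool.Agent.Lib.MP_4a593f_gt.D8.Cl1

/-! Even products are block diagonal (`gam a` is off-diagonal: `Matrix.fromBlocks_multiply`; induction
on the list). -/

open scoped BigOperators

namespace HopfD8

open HopfBig HopfN2 HopfQ4

private theorem list_block (l : List (Fin 8)) :
    (Even l.length → ∃ A B : Mat 8, (l.map gam).prod = Matrix.fromBlocks A 0 0 B) ∧
    (¬ Even l.length → ∃ A B : Mat 8, (l.map gam).prod = Matrix.fromBlocks 0 A B 0) := by
  induction l with
  | nil =>
      refine ⟨fun _ => ⟨1, 1, ?_⟩, fun h => absurd (by simp) h⟩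
      simp [Matrix.fromBlocks_one]
  | cons a l ih =>
      refine ⟨fun h => ?_, fun h => ?_⟩
      · have h' : ¬ Even l.length := by
          rw [List.length_cons, Nat.even_add_one] at h
          exact h
        obtain ⟨A, B, hAB⟩ := ih.2 h'
        refine ⟨-(GR a).transpose * B, GR a * A, ?_⟩
        rw [List.map_cons, List.prod_cons, hAB, gam, Matrix.fromBlocks_multiply]
        simp
      · have h' : Even l.length := by
          rw [List.length_cons, Nat.even_add_one, not_not] at h
          exact h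
        obtain ⟨A, B, hAB⟩ := ih.1 h'
        refine ⟨-(GR a).transpose * B, GR a * A, ?_⟩
        rw [List.map_cons, List.prod_cons, hAB, gam, Matrix.fromBlocks_multiply]
        simp

theorem gs_block {s : Finset (Fin 8)} (h : Even s.card) :
    ∃ A B : Mat 8, gs s = Matrix.fromBlocks A 0 0 B := by
  have h1 : Even (s.sort (· ≤ ·)).length := by
    rw [Finset.length_sort]
    exact h
  exact (list_block _).1 h1

private theorem sum_block {ι : Type} (t : Finset ι) (f : ι → M16)
    (hf : ∀ i ∈ t, ∃ A B : Mat 8, f i = Matrix.fromBlocks A 0 0 B) :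
    ∃ A B : Mat 8, ∑ i ∈ t, f i = Matrix.fromBlocks A 0 0 B := by
  refine Finset.sum_induction f (fun M => ∃ A B : Mat 8, M = Matrix.fromBlocks A 0 0 B) ?_ ?_ hf
  · rintro M M' ⟨A, B, rfl⟩ ⟨A', B', rfl⟩
    exact ⟨A + A', B + B', by rw [Matrix.fromBlocks_add]; simp⟩
  · exact ⟨0, 0, by rw [Matrix.fromBlocks_zero]⟩

private theorem smul_block {c : ℝ} {M : M16} (h : ∃ A B : Mat 8, M = Matrix.fromBlocks A 0 0 B) :
    ∃ A B : Mat 8, c • M = Matrix.fromBlocks A 0 0 B := by
  obtain ⟨A, B, rfl⟩ := h
  exact ⟨c • A, c • B, by rw [Matrix.fromBlocks_smul]; simp⟩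

theorem Th_block {p : ℕ} (hp : Even p) {ψ : Fk 8} (hd : Deg p ψ) :
    ∃ A B : Mat 8, Th ψ = Matrix.fromBlocks A 0 0 B := by
  have e : Th ψ = ∑ s, ψ s • gs s := rfl
  rw [e]
  refine sum_block _ _ fun s _ => ?_
  by_cases hs : s.card = p
  · exact smul_block (gs_block (by rw [hs]; exact hp))
  · rw [hd s hs, zero_smul]
    exact ⟨0, 0, by rw [Matrix.fromBlocks_zero]⟩

theorem AL_block {L : Mat 8} (hL : Skew L) :
    ∃ A B : Mat 8, Skew A ∧ Skew B ∧ AL L = Matrix.fromBlocks A 0 0 B := by
  have h1 : ∃ A B : Mat 8, AL L = Matrix.fromBlocks A 0 0 B := by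
    unfold AL
    refine smul_block (sum_block _ _ fun a _ => sum_block _ _ fun b _ => smul_block ?_)
    refine ⟨-(GR a).transpose * GR b, GR a * -(GR b).transpose, ?_⟩
    rw [gam, gam, Matrix.fromBlocks_multiply]
    simp
  have h2 : (AL L).transpose = -AL L := by
    unfold AL
    rw [Matrix.transpose_smul, Matrix.transpose_sum, ← smul_neg]
    congr 1
    have e1 : ∀ a, (∑ b, L a b • (gam a * gam b)).transpose = ∑ b, L a b • (gam b * gam a) := by
      intro a
      rw [Matrix.transpose_sum]
      refine Finset.sum_congr rfl fun b _ => ?_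
      rw [Matrix.transpose_smul, Matrix.transpose_mul, gam_tr, gam_tr, neg_mul_neg]
    simp_rw [e1]
    rw [Finset.sum_comm, ← Finset.sum_neg_distrib]
    refine Finset.sum_congr rfl fun a _ => ?_
    rw [← Finset.sum_neg_distrib]
    refine Finset.sum_congr rfl fun b _ => ?_
    rw [hL a b, neg_smul]
  obtain ⟨A, B, hAB⟩ := h1
  rw [hAB, Matrix.fromBlocks_transpose, Matrix.fromBlocks_neg] at h2
  have h3 := Matrix.fromBlocks_inj.mp h2
  refine ⟨A, B, ?_, ?_, hAB⟩
  · intro i j
    have := congrFun (congrFun h3.1 i) j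
    simpa using this
  · intro i j
    have := congrFun (congrFun h3.2.2.2 i) j
    simpa using this

end HopfD8
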