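import Pool.Agent.Lib.MP_4a593f_gt.D8.Cl7
import Pool.Agent.Lib.MP_4a593f_gt.D8.Cl6

/-! The two blocks of `AL L` have `ss = 2 ip L L`.  `ss A = -(A * A).trace` for the (skew) blocks; by `AL_sq`
it remains that the two blocks of `Th ψ`, `ψ` of degree 4, have trace 0: for `s.card = 4` pick
`a, b ∈ s` distinct; `gam a * gam b` is block diagonal, orthogonal, ... or: `gs s` commutes with
`gam c` (up to sign): if `a ∈ s` then `gam a` anticommutes with `gs s` (4 factors, one equal to
`gam a`), so with `gam a = fromBlocks 0 (-Gᵀ) G 0`, `gs s = fromBlocks X 0 0 Y`: `G X = -Y G`, hence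
`tr Y = -tr X`; if `a ∉ s` then `gam a` commutes with `gs s`: `tr Y = tr X`. -/

open scoped BigOperators

namespace HopfD8

open HopfBig HopfN2 HopfQ4

private theorem Cl9_sq {a : Fin 8} :
    (GR a).transpose * GR a = 1 ∧ GR a * (GR a).transpose = 1 := by
  have h := gam_sq a
  unfold gam at h
  rw [Matrix.fromBlocks_multiply] at h
  have h1 : (-1 : M16) = Matrix.fromBlocks (-1) 0 0 (-1) := by
    rw [← Matrix.fromBlocks_one, Matrix.fromBlocks_neg, neg_zero]
  rw [h1, Matrix.fromBlocks_inj] at h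
  obtain ⟨h2, -, -, h3⟩ := h
  constructor
  · have := h2
    rw [zero_mul, zero_add, neg_mul, neg_inj] at this
    exact this
  · have := h3
    rw [zero_mul, add_zero, mul_neg, neg_inj] at this
    exact this

private theorem Cl9_comm (a : Fin 8) (l : List (Fin 8)) :
    gam a * (l.map gam).prod
      = ((-1 : ℝ) ^ (l.countP fun b => decide (b ≠ a))) • ((l.map gam).prod * gam a) := by
  induction l with
  | nil => simp
  | cons b l ih =>
    rw [List.map_cons, List.prod_cons, ← mul_assoc]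
    by_cases hb : b = a
    · subst hb
      rw [List.countP_cons_of_neg (by simp)]
      calc gam b * gam b * (l.map gam).prod = gam b * (gam b * (l.map gam).prod) := mul_assoc _ _ _
        _ = gam b * (((-1 : ℝ) ^ (l.countP fun c => decide (c ≠ b))) •
              ((l.map gam).prod * gam b)) := by rw [ih]
        _ = _ := by rw [Matrix.mul_smul, mul_assoc]
    · rw [List.countP_cons_of_pos (by simpa using hb), gam_anti (Ne.symm hb), neg_mul, mul_assoc,
        ih, Matrix.mul_smul, pow_succ, mul_neg, mul_one, neg_smul, mul_assoc]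

private theorem Cl9_count (a : Fin 8) (s : Finset (Fin 8)) :
    ((s.sort (· ≤ ·)).countP fun b => decide (b ≠ a)) = (s.erase a).card := by
  rw [List.countP_eq_length_filter]
  have h1 : ((s.sort (· ≤ ·)).filter fun b => decide (b ≠ a)).Nodup :=
    (Finset.sort_nodup s (· ≤ ·)).filter _
  rw [← List.toFinset_card_of_nodup h1]
  congr 1
  ext b
  simp [and_comm]

private theorem Cl9_gam (a : Fin 8) (s : Finset (Fin 8)) :
    gam a * gs s = ((-1 : ℝ) ^ (s.erase a).card) • (gs s * gam a) := by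
  unfold gs
  rw [Cl9_comm, Cl9_count]

private theorem Cl9_tr {X Y : Mat 8} {a : Fin 8} {c : ℝ}
    (h : gam a * (Matrix.fromBlocks X 0 0 Y : M16) = c • ((Matrix.fromBlocks X 0 0 Y : M16) * gam a)) :
    X.trace = c * Y.trace := by
  unfold gam at h
  rw [Matrix.fromBlocks_multiply, Matrix.fromBlocks_multiply, Matrix.fromBlocks_smul,
    Matrix.fromBlocks_inj] at h
  obtain ⟨-, -, h3, -⟩ := h
  simp only [mul_zero, add_zero, zero_add] at h3
  obtain ⟨g1, g2⟩ := Cl9_sq (a := a)
  have h4 : X = c • ((GR a).transpose * (Y * GR a)) := by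
    rw [← Matrix.mul_smul, ← h3, ← mul_assoc, g1, one_mul]
  rw [h4, Matrix.trace_smul, smul_eq_mul, Matrix.trace_mul_comm, mul_assoc, g2, mul_one]

private theorem Cl9_card4 {s : Finset (Fin 8)} (hs : s.card = 4) {X Y : Mat 8}
    (h : gs s = Matrix.fromBlocks X 0 0 Y) : X.trace = 0 ∧ Y.trace = 0 := by
  obtain ⟨a, ha⟩ : s.Nonempty := by
    rw [← Finset.card_pos, hs]; norm_num
  obtain ⟨b, hb⟩ : ∃ b, b ∉ s := by
    by_contra hcon
    push Not at hcon
    have h1 : s = Finset.univ := Finset.eq_univ_iff_forall.mpr hcon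
    rw [h1, Finset.card_univ, Fintype.card_fin] at hs
    omega
  have e1 := Cl9_gam a s
  have e2 := Cl9_gam b s
  rw [Finset.card_erase_of_mem ha, hs, h] at e1
  rw [Finset.erase_eq_of_notMem hb, hs, h] at e2
  have t1 := Cl9_tr e1
  have t2 := Cl9_tr e2
  norm_num at t1 t2
  constructor <;> linarith

private noncomputable def Cl9_U : M16 →ₗ[ℝ] ℝ where
  toFun M := ∑ i : Fin 8, M (Sum.inl i) (Sum.inl i)
  map_add' M K := by
    simp only [Matrix.add_apply, Finset.sum_add_distrib]
  map_smul' r M := by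
    simp only [Matrix.smul_apply, smul_eq_mul, RingHom.id_apply, Finset.mul_sum]

private noncomputable def Cl9_D : M16 →ₗ[ℝ] ℝ where
  toFun M := ∑ i : Fin 8, M (Sum.inr i) (Sum.inr i)
  map_add' M K := by
    simp only [Matrix.add_apply, Finset.sum_add_distrib]
  map_smul' r M := by
    simp only [Matrix.smul_apply, smul_eq_mul, RingHom.id_apply, Finset.mul_sum]

private theorem Cl9_U_blocks (A B : Mat 8) :
    Cl9_U (Matrix.fromBlocks A 0 0 B : M16) = A.trace := by
  simp only [Cl9_U, LinearMap.coe_mk, AddHom.coe_mk, Matrix.fromBlocks_apply₁₁, Matrix.trace,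
    Matrix.diag_apply]

private theorem Cl9_D_blocks (A B : Mat 8) :
    Cl9_D (Matrix.fromBlocks A 0 0 B : M16) = B.trace := by
  simp only [Cl9_D, LinearMap.coe_mk, AddHom.coe_mk, Matrix.fromBlocks_apply₂₂, Matrix.trace,
    Matrix.diag_apply]

private theorem Cl9_Th {ψ : Fk 8} (hd : Deg 4 ψ) : Cl9_U (Th ψ) = 0 ∧ Cl9_D (Th ψ) = 0 := by
  have hT : Th ψ = ∑ s, ψ s • gs s := rfl
  have key : ∀ s : Finset (Fin 8), Cl9_U (ψ s • gs s) = 0 ∧ Cl9_D (ψ s • gs s) = 0 := by
    intro s
    by_cases hs : s.card = 4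
    · obtain ⟨X, Y, hXY⟩ := gs_block (s := s) (by rw [hs]; decide)
      obtain ⟨t1, t2⟩ := Cl9_card4 hs hXY
      rw [map_smul, map_smul, hXY, Cl9_U_blocks, Cl9_D_blocks, t1, t2, smul_zero]
      exact ⟨rfl, rfl⟩
    · rw [hd s hs, zero_smul, map_zero, map_zero]
      exact ⟨rfl, rfl⟩
  rw [hT, map_sum, map_sum]
  exact ⟨Finset.sum_eq_zero fun s _ => (key s).1, Finset.sum_eq_zero fun s _ => (key s).2⟩

private theorem Cl9_deg_add {p : ℕ} (f g : Fk 8) (hf : Deg p f) (hg : Deg p g) :
    Deg p (f + g) := by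
  intro s hs
  rw [PiLp.add_apply, hf s hs, hg s hs, add_zero]

private theorem Cl9_deg_smul {p : ℕ} (r : ℝ) (f : Fk 8) (hf : Deg p f) : Deg p (r • f) := by
  intro s hs
  rw [PiLp.smul_apply, hf s hs, smul_zero]

private theorem Cl9_deg_zero {p : ℕ} : Deg p (0 : Fk 8) := by
  intro s _
  rfl

private theorem Cl9_deg_wdg {p : ℕ} {f : Fk 8} (h : Deg p f) (L : Mat 8) :
    Deg (p + 2) (wdg L f) := by
  have hw : wdg L f = (1 / 2 : ℝ) • ∑ a, ∑ b, L a b • cr a (cr b f) := by
    simp only [wdg, LinearMap.coe_mk, AddHom.coe_mk, LinearMap.smul_apply,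
      LinearMap.sum_apply, LinearMap.comp_apply]
  rw [hw]
  apply Cl9_deg_smul
  refine Finset.sum_induction _ (Deg (p + 2)) Cl9_deg_add Cl9_deg_zero fun a _ => ?_
  refine Finset.sum_induction _ (Deg (p + 2)) Cl9_deg_add Cl9_deg_zero fun b _ => ?_
  exact Cl9_deg_smul _ _ ((h.cr b).cr a)

private theorem Cl9_deg_vac : Deg 0 (vac 8) := by
  intro s hs
  have h1 : s ≠ ∅ := by
    rintro rfl
    exact hs Finset.card_empty
  unfold vac
  rw [PiLp.single_apply, if_neg h1]

private theorem Cl9_ss {A : Mat 8} (hA : Skew A) : ss A = -(A * A).trace := by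
  unfold ss
  rw [Matrix.trace, ← Finset.sum_neg_distrib]
  refine Finset.sum_congr rfl fun i _ => ?_
  rw [Matrix.diag_apply, Matrix.mul_apply, ← Finset.sum_neg_distrib]
  refine Finset.sum_congr rfl fun j _ => ?_
  rw [hA i j]
  ring

theorem ss_AL {L : Mat 8} (hL : Skew L) {A B : Mat 8} (h : AL L = Matrix.fromBlocks A 0 0 B) :
    ss A = 2 * ip L L ∧ ss B = 2 * ip L L := by
  obtain ⟨A', B', hA', hB', h'⟩ := AL_block hL
  have e := h.symm.trans h'
  rw [Matrix.fromBlocks_inj] at e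
  obtain ⟨eA, -, -, eB⟩ := e
  have hA : Skew A := by rw [eA]; exact hA'
  have hB : Skew B := by rw [eB]; exact hB'
  have hsq := AL_sq hL
  have hd : Deg 4 (wdg L (wdg L (vac 8))) :=
    Cl9_deg_wdg (p := 2) (Cl9_deg_wdg (p := 0) Cl9_deg_vac L) L
  obtain ⟨t1, t2⟩ := Cl9_Th hd
  have hm : AL L * AL L = Matrix.fromBlocks (A * A) 0 0 (B * B) := by
    rw [h, Matrix.fromBlocks_multiply]
    simp only [zero_mul, mul_zero, add_zero, zero_add]
  have hone : (1 : M16) = Matrix.fromBlocks 1 0 0 1 := Matrix.fromBlocks_one.symm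
  have hU := congrArg Cl9_U hsq
  have hD := congrArg Cl9_D hsq
  rw [hm, Cl9_U_blocks, map_sub, map_smul, map_smul, t1, hone, Cl9_U_blocks,
    Matrix.trace_one, Fintype.card_fin] at hU
  rw [hm, Cl9_D_blocks, map_sub, map_smul, map_smul, t2, hone, Cl9_D_blocks,
    Matrix.trace_one, Fintype.card_fin] at hD
  rw [Cl9_ss hA, Cl9_ss hB, hU, hD]
  simp only [smul_eq_mul]
  push_cast
  constructor <;> ring

end HopfD8
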