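import Pool.Agent.Lib.MP_4a593f_gt.D8.MatD

/-! General case from `matD` by the spectral theorem: `D = U diag(d) Uᵀ` with `U` orthogonal
(`Matrix.IsHermitian.spectral_theorem`), `A i = U A' Uᵀ`; `ss` is invariant under conjugation by
orthogonal matrices (`ss A = (Aᵀ * A).trace`), `∑ d² = ss D`. -/

open scoped BigOperators

namespace HopfD8

open HopfBig HopfN2 HopfQ4

private lemma ss_trace {N : ℕ} (A : Mat N) : ss A = (A.transpose * A).trace := by
  unfold ss
  simp only [Matrix.trace, Matrix.diag_apply, Matrix.mul_apply, Matrix.transpose_apply]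
  rw [Finset.sum_comm]
  exact Finset.sum_congr rfl fun i _ => Finset.sum_congr rfl fun j _ => by ring

private lemma ss_conj {N : ℕ} {U : Mat N} (h1 : U.transpose * U = 1) (A : Mat N) :
    ss (U * A * U.transpose) = ss A := by
  rw [ss_trace, ss_trace]
  have e : (U * A * U.transpose).transpose * (U * A * U.transpose) =
      U * (A.transpose * A) * U.transpose := by
    simp only [Matrix.transpose_mul, Matrix.transpose_transpose]
    calc U * (A.transpose * U.transpose) * (U * A * U.transpose)
        = U * A.transpose * (U.transpose * U) * A * U.transpose := by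
          simp only [Matrix.mul_assoc]
      _ = U * (A.transpose * A) * U.transpose := by
          rw [h1, Matrix.mul_one]; simp only [Matrix.mul_assoc]
  rw [e, Matrix.trace_mul_comm, ← Matrix.mul_assoc, h1, Matrix.one_mul]

private lemma skew_iff {N : ℕ} {A : Mat N} : Skew A ↔ A.transpose = -A := by
  constructor
  · intro h; ext i j; simpa using h i j
  · intro h i j
    have := congrFun (congrFun h i) j
    simpa using this

theorem matM {N m : ℕ} (hN : 4 ≤ N) {A B : Fin m → Mat N} (hA : ∀ i, Skew (A i))
    (hB : ∀ j, Skew (B j)) {s : ℝ} (h : ∑ i, A i * A i - ∑ j, B j * B j = s • (1 : Mat N))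
    {D : Mat N} (hD : D.transpose = D) :
    ∑ i, ss (br (A i) D) - ∑ j, ss (br (B j) D) ≤ (∑ i, ss (A i)) * ss D := by
  have hH : D.IsHermitian := by
    rw [Matrix.IsHermitian, Matrix.conjTranspose_eq_transpose_of_trivial]; exact hD
  set W : Mat N := (hH.eigenvectorUnitary : Mat N) with hW
  set d : Fin N → ℝ := hH.eigenvalues with hd
  have hsp : D = W * Matrix.diagonal d * W.transpose := by
    have := hH.spectral_theorem
    rw [Unitary.conjStarAlgAut_apply] at this
    rw [this]
    congr 1
  have hU2 : W * W.transpose = 1 := by
    have := Unitary.coe_mul_star_self hH.eigenvectorUnitary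
    rwa [Unitary.coe_star, Matrix.star_eq_conjTranspose,
      Matrix.conjTranspose_eq_transpose_of_trivial] at this
  have hU1 : W.transpose * W = 1 := by
    have := Unitary.coe_star_mul_self hH.eigenvectorUnitary
    rwa [Matrix.star_eq_conjTranspose, Matrix.conjTranspose_eq_transpose_of_trivial] at this
  have hss : ∀ X : Mat N, ss (W.transpose * X * W) = ss X := by
    intro X
    have := ss_conj (U := W.transpose) (by rw [Matrix.transpose_transpose]; exact hU2) X
    rwa [Matrix.transpose_transpose] at this
  have hbr : ∀ X : Mat N, br (W.transpose * X * W) (Matrix.diagonal d) =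
      W.transpose * br X D * W := by
    intro X
    have e1 : W.transpose * D = Matrix.diagonal d * W.transpose := by
      rw [hsp, ← Matrix.mul_assoc, ← Matrix.mul_assoc, hU1, Matrix.one_mul]
    have e2 : D * W = W * Matrix.diagonal d := by
      rw [hsp, Matrix.mul_assoc, hU1, Matrix.mul_one]
    unfold br
    rw [Matrix.mul_sub, Matrix.sub_mul]
    congr 1
    · calc W.transpose * X * W * Matrix.diagonal d
          = W.transpose * X * (W * Matrix.diagonal d) := by rw [Matrix.mul_assoc]
        _ = W.transpose * (X * D) * W := by rw [← e2]; simp only [Matrix.mul_assoc]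
    · calc Matrix.diagonal d * (W.transpose * X * W)
          = (Matrix.diagonal d * W.transpose) * X * W := by simp only [Matrix.mul_assoc]
        _ = W.transpose * (D * X) * W := by rw [← e1]; simp only [Matrix.mul_assoc]
  have hsk : ∀ X : Mat N, Skew X → Skew (W.transpose * X * W) := by
    intro X hX
    rw [skew_iff] at hX ⊢
    rw [Matrix.transpose_mul, Matrix.transpose_mul, Matrix.transpose_transpose, hX]
    simp only [Matrix.mul_neg, Matrix.neg_mul, Matrix.mul_assoc]
  have hsq : ∀ X : Mat N, (W.transpose * X * W) * (W.transpose * X * W) =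
      W.transpose * (X * X) * W := by
    intro X
    calc (W.transpose * X * W) * (W.transpose * X * W)
        = W.transpose * X * (W * W.transpose) * X * W := by simp only [Matrix.mul_assoc]
      _ = W.transpose * (X * X) * W := by rw [hU2, Matrix.mul_one]; simp only [Matrix.mul_assoc]
  have key := matD hN (A := fun i => W.transpose * A i * W) (B := fun j => W.transpose * B j * W)
    (fun i => hsk _ (hA i)) (fun j => hsk _ (hB j)) (s := s)
    (by
      simp only [hsq]
      rw [← Finset.sum_mul, ← Finset.sum_mul, ← Finset.mul_sum, ← Finset.mul_sum,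
        ← Matrix.sub_mul, ← Matrix.mul_sub, h]
      rw [Matrix.mul_smul, Matrix.mul_one, Matrix.smul_mul, hU1]) d
  simp only [hbr, hss] at key
  have hDss : ss D = ∑ k, d k ^ 2 := by
    conv_lhs => rw [hsp]
    rw [ss_conj hU1]
    unfold ss
    refine Finset.sum_congr rfl fun i _ => ?_
    rw [Finset.sum_eq_single i]
    · rw [Matrix.diagonal_apply_eq]
    · intro j _ hj
      rw [Matrix.diagonal_apply_ne' _ hj]; ring
    · intro hi; exact absurd (Finset.mem_univ i) hi
  rw [hDss]
  exact key

end HopfD8
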