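import Pool.Agent.Lib.MP_4a593f_gt.D8.Cl4
import Pool.Agent.Lib.MP_4a593f_gt.D8.Cl5
import Pool.Agent.Lib.MP_4a593f_gt.D8.Cl8
import Pool.Agent.Lib.MP_4a593f_gt.D8.Cl9
import Pool.Agent.Lib.MP_4a593f_gt.D8.MatM

/-! Combination: for a 4-form `ψ`, `Th ψ = fromBlocks D E` (`Th_block`, symmetric by `Th_tr`),
`AL (N i) = fromBlocks (A i) (A' i)`; `16 ‖rho L ψ‖² = ss (br A D) + ss (br A' E)` (`Th_rho`,
`Th_inner`, `rho L ψ` has degree 4), `16 ‖ψ‖² = ss D + ss E`, `AL_bal` gives the hypothesis of `matM`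
for both blocks, `ss_AL` the right side. -/

open scoped BigOperators

namespace HopfD8

open HopfBig HopfN2 HopfQ4

private theorem bd84_sum_blk {m : ℕ} (A A' : Fin m → Mat 8) :
    ∑ i, (Matrix.fromBlocks (A i) 0 0 (A' i) : M16) * Matrix.fromBlocks (A i) 0 0 (A' i) =
      Matrix.fromBlocks (∑ i, A i * A i) 0 0 (∑ i, A' i * A' i) := by
  have h : ∀ i, (Matrix.fromBlocks (A i) 0 0 (A' i) : M16) * Matrix.fromBlocks (A i) 0 0 (A' i) =
      Matrix.fromBlocks (A i * A i) 0 0 (A' i * A' i) := by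
    intro i
    rw [Matrix.fromBlocks_multiply]
    simp only [Matrix.mul_zero, Matrix.zero_mul, add_zero, zero_add]
  rw [Finset.sum_congr rfl fun i _ => h i]
  ext (a | a) (b | b)
  · simp only [Matrix.sum_apply, Matrix.fromBlocks_apply₁₁]
  · simp only [Matrix.sum_apply, Matrix.fromBlocks_apply₁₂, Matrix.zero_apply,
      Finset.sum_const_zero]
  · simp only [Matrix.sum_apply, Matrix.fromBlocks_apply₂₁, Matrix.zero_apply,
      Finset.sum_const_zero]
  · simp only [Matrix.sum_apply, Matrix.fromBlocks_apply₂₂]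

private theorem bd84_ss_blk (A B : Mat 8) :
    ∑ i, ∑ j, (Matrix.fromBlocks A 0 0 B : M16) i j * (Matrix.fromBlocks A 0 0 B : M16) i j =
      ss A + ss B := by
  simp only [Fintype.sum_sum_type, Matrix.fromBlocks_apply₁₁, Matrix.fromBlocks_apply₁₂,
    Matrix.fromBlocks_apply₂₁, Matrix.fromBlocks_apply₂₂, Matrix.zero_apply, mul_zero,
    Finset.sum_const_zero, add_zero, zero_add, ss, pow_two]

private theorem bd84_norm {L : Mat 8} (hL : Skew L) {ψ : Fk 8} (hd : Deg 4 ψ)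
    {A A' D E : Mat 8} (hA : AL L = Matrix.fromBlocks A 0 0 A')
    (hD : Th ψ = Matrix.fromBlocks D 0 0 E) :
    16 * ‖rho L ψ‖ ^ 2 = ss (br A D) + ss (br A' E) := by
  have h1 := Th_rho hL hd
  rw [hA, hD, Matrix.fromBlocks_multiply, Matrix.fromBlocks_multiply] at h1
  simp only [Matrix.mul_zero, Matrix.zero_mul, add_zero, zero_add] at h1
  have h2 : Th (rho L ψ) = Matrix.fromBlocks (br A D) 0 0 (br A' E) := by
    rw [h1]
    ext (a | a) (b | b)
    · simp only [Matrix.sub_apply, Matrix.fromBlocks_apply₁₁, br]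
    · simp only [Matrix.sub_apply, Matrix.fromBlocks_apply₁₂, Matrix.zero_apply, sub_zero]
    · simp only [Matrix.sub_apply, Matrix.fromBlocks_apply₂₁, Matrix.zero_apply, sub_zero]
    · simp only [Matrix.sub_apply, Matrix.fromBlocks_apply₂₂, br]
  have h3 := Th_inner (rho L ψ) (rho L ψ)
  rw [h2, bd84_ss_blk, real_inner_self_eq_norm_sq] at h3
  exact h3.symm

theorem bd84 (m : ℕ) : Bd 8 m 4 2 := by
  intro N P hB ψ hd
  obtain ⟨D, E, hDE⟩ := Th_block (p := 4) (by decide) hd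
  -- the blocks of `Th ψ` are symmetric
  have htr := Th_tr hd
  rw [show ((-1 : ℝ) ^ (4 * (4 + 1) / 2)) = 1 by norm_num, one_smul, hDE,
    Matrix.fromBlocks_transpose] at htr
  obtain ⟨hD, -, -, hE⟩ := Matrix.fromBlocks_inj.1 htr
  choose A A' hAs hA's hA using fun i => AL_block (hB.skN i)
  choose B B' hBs hB's hB2 using fun j => AL_block (hB.skP j)
  have hbal := AL_bal hB
  set c : ℝ := -(1 / 4 : ℝ) * (∑ i, ip (N i) (N i) - ∑ j, ip (P j) (P j)) with hc
  have h1 : (∑ i, A i * A i - ∑ j, B j * B j = c • (1 : Mat 8)) ∧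
      (∑ i, A' i * A' i - ∑ j, B' j * B' j = c • (1 : Mat 8)) := by
    have hN1 : ∑ i, AL (N i) * AL (N i) =
        Matrix.fromBlocks (∑ i, A i * A i) 0 0 (∑ i, A' i * A' i) := by
      rw [← bd84_sum_blk]
      exact Finset.sum_congr rfl fun i _ => by rw [hA i]
    have hP1 : ∑ j, AL (P j) * AL (P j) =
        Matrix.fromBlocks (∑ j, B j * B j) 0 0 (∑ j, B' j * B' j) := by
      rw [← bd84_sum_blk]
      exact Finset.sum_congr rfl fun j _ => by rw [hB2 j]
    rw [hN1, hP1] at hbal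
    constructor
    · ext a b
      have h := congrFun (congrFun hbal (Sum.inl a)) (Sum.inl b)
      simp only [Matrix.sub_apply, Matrix.fromBlocks_apply₁₁, Matrix.smul_apply, Matrix.one_apply,
        Sum.inl.injEq] at h
      simp only [Matrix.sub_apply, Matrix.smul_apply, Matrix.one_apply]
      exact h
    · ext a b
      have h := congrFun (congrFun hbal (Sum.inr a)) (Sum.inr b)
      simp only [Matrix.sub_apply, Matrix.fromBlocks_apply₂₂, Matrix.smul_apply, Matrix.one_apply,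
        Sum.inr.injEq] at h
      simp only [Matrix.sub_apply, Matrix.smul_apply, Matrix.one_apply]
      exact h
  have k1 := matM (N := 8) (by norm_num) hAs hBs h1.1 hD
  have k2 := matM (N := 8) (by norm_num) hA's hB's h1.2 hE
  have e1 : ∑ i, ss (A i) = 2 * ∑ i, ip (N i) (N i) := by
    rw [Finset.mul_sum]
    exact Finset.sum_congr rfl fun i _ => (ss_AL (hB.skN i) (hA i)).1
  have e2 : ∑ i, ss (A' i) = 2 * ∑ i, ip (N i) (N i) := by
    rw [Finset.mul_sum]
    exact Finset.sum_congr rfl fun i _ => (ss_AL (hB.skN i) (hA i)).2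
  have e3 : 16 * ∑ i, ‖rho (N i) ψ‖ ^ 2 = ∑ i, ss (br (A i) D) + ∑ i, ss (br (A' i) E) := by
    rw [Finset.mul_sum, ← Finset.sum_add_distrib]
    exact Finset.sum_congr rfl fun i _ => bd84_norm (hB.skN i) hd (hA i) hDE
  have e4 : 16 * ∑ j, ‖rho (P j) ψ‖ ^ 2 = ∑ j, ss (br (B j) D) + ∑ j, ss (br (B' j) E) := by
    rw [Finset.mul_sum, ← Finset.sum_add_distrib]
    exact Finset.sum_congr rfl fun j _ => bd84_norm (hB.skP j) hd (hB2 j) hDE
  have e5 : 16 * ‖ψ‖ ^ 2 = ss D + ss E := by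
    have h := Th_inner ψ ψ
    rw [hDE, bd84_ss_blk, real_inner_self_eq_norm_sq] at h
    exact h.symm
  rw [e1] at k1
  rw [e2] at k2
  have e6 : (2 * ∑ i, ip (N i) (N i)) * ss D + (2 * ∑ i, ip (N i) (N i)) * ss E =
      (2 * ∑ i, ip (N i) (N i)) * (16 * ‖ψ‖ ^ 2) := by
    rw [e5]; ring
  linarith

end HopfD8
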