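import Pool.Agent.Lib.MP_4a593f_gt.Q4.Defs

/-! # Dimensions 6, 7, 8: the sharp constant 2 (definitions, no task)

Spin representation in dimension 8: `gam a` (`a : Fin 8`) are anticommuting skew `16 x 16` matrices
with `gam a * gam a = -1`, off-diagonal in blocks of size 8.  `Th : Fk 8 -> M16` is the isomorphism
of forms with the Clifford algebra; `Th (rho L psi) = [AL L, Th psi]`.  On 4-forms `Th psi` is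
symmetric and block diagonal. -/

open scoped BigOperators

namespace HopfD8

open HopfBig HopfN2 HopfQ4

/-- the inequality with constant `C` for `p`-forms -/
def Bd (n m p : ℕ) (C : ℝ) : Prop :=
  ∀ N P : Fin m → Mat n, Bal N P → ∀ ψ : Fk n, Deg p ψ →
    ∑ i, ‖rho (N i) ψ‖ ^ 2 - ∑ j, ‖rho (P j) ψ‖ ^ 2 ≤ C * (∑ i, ip (N i) (N i)) * ‖ψ‖ ^ 2

/-- signed permutation matrices with `Gᵀ_a G_b + Gᵀ_b G_a = 2 δ_ab` -/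
def G8 : Fin 8 → Matrix (Fin 8) (Fin 8) ℤ := ![
  !![1, 0, 0, 0, 0, 0, 0, 0; 0, -1, 0, 0, 0, 0, 0, 0; 0, 0, -1, 0, 0, 0, 0, 0; 0, 0, 0, 1, 0, 0, 0, 0; 0, 0, 0, 0, -1, 0, 0, 0; 0, 0, 0, 0, 0, 1, 0, 0; 0, 0, 0, 0, 0, 0, 1, 0; 0, 0, 0, 0, 0, 0, 0, -1],
  !![0, 1, 0, 0, 0, 0, 0, 0; 1, 0, 0, 0, 0, 0, 0, 0; 0, 0, 0, -1, 0, 0, 0, 0; 0, 0, -1, 0, 0, 0, 0, 0; 0, 0, 0, 0, 0, -1, 0, 0; 0, 0, 0, 0, -1, 0, 0, 0; 0, 0, 0, 0, 0, 0, 0, 1; 0, 0, 0, 0, 0, 0, 1, 0],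
  !![0, 0, 1, 0, 0, 0, 0, 0; 0, 0, 0, 1, 0, 0, 0, 0; 1, 0, 0, 0, 0, 0, 0, 0; 0, 1, 0, 0, 0, 0, 0, 0; 0, 0, 0, 0, 0, 0, -1, 0; 0, 0, 0, 0, 0, 0, 0, -1; 0, 0, 0, 0, -1, 0, 0, 0; 0, 0, 0, 0, 0, -1, 0, 0],
  !![0, 0, 0, 0, 1, 0, 0, 0; 0, 0, 0, 0, 0, 1, 0, 0; 0, 0, 0, 0, 0, 0, 1, 0; 0, 0, 0, 0, 0, 0, 0, 1; 1, 0, 0, 0, 0, 0, 0, 0; 0, 1, 0, 0, 0, 0, 0, 0; 0, 0, 1, 0, 0, 0, 0, 0; 0, 0, 0, 1, 0, 0, 0, 0],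
  !![0, 0, 0, 0, 0, 0, 0, 1; 0, 0, 0, 0, 0, 0, -1, 0; 0, 0, 0, 0, 0, 1, 0, 0; 0, 0, 0, 0, -1, 0, 0, 0; 0, 0, 0, -1, 0, 0, 0, 0; 0, 0, 1, 0, 0, 0, 0, 0; 0, -1, 0, 0, 0, 0, 0, 0; 1, 0, 0, 0, 0, 0, 0, 0],
  !![0, 0, 0, 0, 0, 0, 1, 0; 0, 0, 0, 0, 0, 0, 0, 1; 0, 0, 0, 0, -1, 0, 0, 0; 0, 0, 0, 0, 0, -1, 0, 0; 0, 0, 1, 0, 0, 0, 0, 0; 0, 0, 0, 1, 0, 0, 0, 0; -1, 0, 0, 0, 0, 0, 0, 0; 0, -1, 0, 0, 0, 0, 0, 0],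
  !![0, 0, 0, 0, 0, -1, 0, 0; 0, 0, 0, 0, 1, 0, 0, 0; 0, 0, 0, 0, 0, 0, 0, 1; 0, 0, 0, 0, 0, 0, -1, 0; 0, -1, 0, 0, 0, 0, 0, 0; 1, 0, 0, 0, 0, 0, 0, 0; 0, 0, 0, 1, 0, 0, 0, 0; 0, 0, -1, 0, 0, 0, 0, 0],
  !![0, 0, 0, 1, 0, 0, 0, 0; 0, 0, -1, 0, 0, 0, 0, 0; 0, 1, 0, 0, 0, 0, 0, 0; -1, 0, 0, 0, 0, 0, 0, 0; 0, 0, 0, 0, 0, 0, 0, 1; 0, 0, 0, 0, 0, 0, -1, 0; 0, 0, 0, 0, 0, 1, 0, 0; 0, 0, 0, 0, -1, 0, 0, 0]]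

/-- real version -/
noncomputable def GR (a : Fin 8) : Matrix (Fin 8) (Fin 8) ℝ := (G8 a).map (Int.cast : ℤ → ℝ)

abbrev M16 := Matrix (Fin 8 ⊕ Fin 8) (Fin 8 ⊕ Fin 8) ℝ

/-- the gamma matrices -/
noncomputable def gam (a : Fin 8) : M16 := Matrix.fromBlocks 0 (-(GR a).transpose) (GR a) 0

/-- ordered product of gamma matrices -/
noncomputable def gs (s : Finset (Fin 8)) : M16 := ((s.sort (· ≤ ·)).map gam).prod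

/-- forms as elements of the Clifford algebra -/
noncomputable def Th : Fk 8 →ₗ[ℝ] M16 where
  toFun ψ := ∑ s, ψ s • gs s
  map_add' ψ χ := by
    simp only [PiLp.add_apply, add_smul, Finset.sum_add_distrib]
  map_smul' r ψ := by
    simp only [PiLp.smul_apply, smul_eq_mul, RingHom.id_apply, Finset.smul_sum, smul_smul]

/-- the form `1` -/
noncomputable def vac (n : ℕ) : Fk n := EuclideanSpace.single ∅ 1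

/-- spin representation of the 2-form `L` -/
noncomputable def AL (L : Mat 8) : M16 := (-(1 / 4 : ℝ)) • ∑ a, ∑ b, L a b • (gam a * gam b)

/-- sum of the squares of the entries -/
noncomputable def ss {ι : Type} [Fintype ι] (A : Matrix ι ι ℝ) : ℝ := ∑ i, ∑ j, A i j ^ 2

end HopfD8
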