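import Pool.Agent.Lib.MP_4a593f_gt.D8.Defs

/-! Monotonicity in the dimension: `ψ ↦ ψ ∧ e_n`, `L ↦ L ⊕ 0`.
`emb ψ : Fk (n+1)`, `emb ψ s = ψ {a | castSucc a ∈ s}` if `Fin.last n ∈ s`, else `0`; `‖emb ψ‖ = ‖ψ‖`,
`Deg (p+1)`; `ext L = Matrix.of fun i j => Fin.lastCases 0 (fun i => Fin.lastCases 0 (fun j => L i j) j) i`;
`rho (ext L) (emb ψ) = emb (rho L ψ)` (the signs `sg` of `cr a`, `an b`, `a, b < last`, are not changed by
the last element), `ip (ext L) (ext L) = ip L L`, `Four f → Four (fun L => f (ext L))`. -/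

open scoped BigOperators

namespace HopfD8

open HopfBig HopfN2 HopfQ4

private def eDown {n : ℕ} (t : Finset (Fin (n + 1))) : Finset (Fin n) :=
  Finset.univ.filter (fun a => a.castSucc ∈ t)

private def eUp {n : ℕ} (s : Finset (Fin n)) : Finset (Fin (n + 1)) :=
  insert (Fin.last n) (s.map Fin.castSuccEmb)

private theorem mem_eDown {n : ℕ} (t : Finset (Fin (n + 1))) (a : Fin n) :
    a ∈ eDown t ↔ a.castSucc ∈ t := by
  simp [eDown]

private theorem castSucc_mem_eUp {n : ℕ} (s : Finset (Fin n)) (a : Fin n) :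
    a.castSucc ∈ eUp s ↔ a ∈ s := by
  unfold eUp
  rw [Finset.mem_insert, Finset.mem_map]
  constructor
  · rintro (h | ⟨b, hb, h⟩)
    · exact absurd h (Fin.castSucc_lt_last a).ne
    · have : b = a := Fin.castSucc_injective n h
      rwa [← this]
  · intro h
    exact Or.inr ⟨a, h, rfl⟩

private theorem last_mem_eUp {n : ℕ} (s : Finset (Fin n)) : Fin.last n ∈ eUp s :=
  Finset.mem_insert_self _ _

private theorem eDown_eUp {n : ℕ} (s : Finset (Fin n)) : eDown (eUp s) = s := by
  ext a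
  rw [mem_eDown, castSucc_mem_eUp]

private theorem eUp_eDown {n : ℕ} (t : Finset (Fin (n + 1))) (ht : Fin.last n ∈ t) :
    eUp (eDown t) = t := by
  ext a
  induction a using Fin.lastCases with
  | last => exact ⟨fun _ => ht, fun _ => last_mem_eUp _⟩
  | cast a => rw [castSucc_mem_eUp, mem_eDown]

private theorem card_eUp {n : ℕ} (s : Finset (Fin n)) : (eUp s).card = s.card + 1 := by
  unfold eUp
  rw [Finset.card_insert_of_notMem, Finset.card_map]
  rw [Finset.mem_map]
  rintro ⟨b, _, h⟩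
  exact absurd h (Fin.castSucc_lt_last b).ne

private noncomputable def eEmb {n : ℕ} : Fk n →ₗ[ℝ] Fk (n + 1) where
  toFun f := WithLp.toLp 2 fun t => if Fin.last n ∈ t then f (eDown t) else 0
  map_add' f g := by
    ext s; simp only [PiLp.add_apply]; split_ifs <;> ring
  map_smul' r f := by
    ext s; simp only [PiLp.smul_apply, RingHom.id_apply, smul_eq_mul]; split_ifs <;> ring

private theorem eEmb_apply {n : ℕ} (f : Fk n) (t : Finset (Fin (n + 1))) :
    eEmb f t = if Fin.last n ∈ t then f (eDown t) else 0 := rfl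

private theorem norm_eEmb {n : ℕ} (f : Fk n) : ‖eEmb f‖ ^ 2 = ‖f‖ ^ 2 := by
  rw [EuclideanSpace.norm_sq_eq, EuclideanSpace.norm_sq_eq]
  have h1 : ∀ t : Finset (Fin (n + 1)), ‖eEmb f t‖ ^ 2 =
      if Fin.last n ∈ t then ‖f (eDown t)‖ ^ 2 else 0 := by
    intro t
    rw [eEmb_apply]
    split_ifs <;> simp
  rw [Finset.sum_congr rfl fun t _ => h1 t, ← Finset.sum_filter]
  symm
  refine Finset.sum_nbij' eUp eDown ?_ ?_ ?_ ?_ ?_
  · intro s _
    rw [Finset.mem_filter]
    exact ⟨Finset.mem_univ _, last_mem_eUp s⟩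
  · intro t _
    exact Finset.mem_univ _
  · intro s _
    exact eDown_eUp s
  · intro t ht
    rw [Finset.mem_filter] at ht
    exact eUp_eDown t ht.2
  · intro s _
    rw [eDown_eUp]

private theorem sg_castSucc {n : ℕ} (a : Fin n) (t : Finset (Fin (n + 1))) :
    sg a.castSucc t = sg a (eDown t) := by
  unfold sg
  congr 1
  symm
  refine Finset.card_bij (fun b _ => b.castSucc) ?_ ?_ ?_
  · intro b hb
    rw [Finset.mem_filter] at hb ⊢
    exact ⟨(mem_eDown t b).1 hb.1, Fin.castSucc_lt_castSucc_iff.2 hb.2⟩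
  · intro b _ c _ h
    exact Fin.castSucc_injective n h
  · intro c hc
    rw [Finset.mem_filter] at hc
    induction c using Fin.lastCases with
    | last => exact absurd hc.2 (not_lt_of_ge (Fin.le_last _))
    | cast c =>
      exact ⟨c, Finset.mem_filter.2 ⟨(mem_eDown t c).2 hc.1, Fin.castSucc_lt_castSucc_iff.1 hc.2⟩, rfl⟩

private theorem an_eEmb {n : ℕ} (b : Fin n) (f : Fk n) :
    an b.castSucc (eEmb f) = eEmb (an b f) := by
  ext t
  rw [an_apply, eEmb_apply, eEmb_apply, an_apply, sg_castSucc]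
  have h1 : Fin.last n ∈ insert b.castSucc t ↔ Fin.last n ∈ t := by
    rw [Finset.mem_insert]
    exact ⟨fun h => h.resolve_left (Fin.castSucc_lt_last b).ne', Or.inr⟩
  have h2 : eDown (insert b.castSucc t) = insert b (eDown t) := by
    ext a
    rw [mem_eDown, Finset.mem_insert, Finset.mem_insert, mem_eDown]
    exact ⟨fun h => h.imp (fun h => Fin.castSucc_injective n h) id,
      fun h => h.imp (fun h => by rw [h]) id⟩
  have h3 : b ∈ eDown t ↔ b.castSucc ∈ t := mem_eDown t b
  rw [h2]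
  by_cases hl : Fin.last n ∈ t
  · rw [if_pos (h1.2 hl), if_pos hl]
    by_cases hb : b.castSucc ∈ t
    · rw [if_pos hb, if_pos (h3.2 hb)]
    · rw [if_neg hb, if_neg (fun h => hb (h3.1 h))]
  · rw [if_neg (fun h => hl (h1.1 h)), if_neg hl, mul_zero, ite_self]

private theorem cr_eEmb {n : ℕ} (b : Fin n) (f : Fk n) :
    cr b.castSucc (eEmb f) = eEmb (cr b f) := by
  ext t
  rw [cr_apply, eEmb_apply, eEmb_apply, cr_apply, sg_castSucc]
  have h1 : Fin.last n ∈ t.erase b.castSucc ↔ Fin.last n ∈ t := by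
    rw [Finset.mem_erase]
    exact ⟨fun h => h.2, fun h => ⟨(Fin.castSucc_lt_last b).ne', h⟩⟩
  have h2 : eDown (t.erase b.castSucc) = (eDown t).erase b := by
    ext a
    rw [mem_eDown, Finset.mem_erase, Finset.mem_erase, mem_eDown]
    exact ⟨fun h => ⟨fun h' => h.1 (by rw [h']), h.2⟩,
      fun h => ⟨fun h' => h.1 (Fin.castSucc_injective n h'), h.2⟩⟩
  have h3 : b ∈ eDown t ↔ b.castSucc ∈ t := mem_eDown t b
  rw [h2]
  by_cases hl : Fin.last n ∈ t
  · rw [if_pos (h1.2 hl), if_pos hl]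
    by_cases hb : b.castSucc ∈ t
    · rw [if_pos hb, if_pos (h3.2 hb)]
    · rw [if_neg hb, if_neg (fun h => hb (h3.1 h))]
  · rw [if_neg (fun h => hl (h1.1 h)), if_neg hl, mul_zero, ite_self]

private def eExt {n : ℕ} (L : Mat n) : Mat (n + 1) :=
  Matrix.of fun i j => Fin.lastCases (motive := fun _ => ℝ) 0
    (fun i => Fin.lastCases (motive := fun _ => ℝ) 0 (fun j => L i j) j) i

private theorem eExt_cc {n : ℕ} (L : Mat n) (i j : Fin n) : eExt L i.castSucc j.castSucc = L i j := by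
  simp [eExt]

private theorem eExt_l {n : ℕ} (L : Mat n) (j : Fin (n + 1)) : eExt L (Fin.last n) j = 0 := by
  simp [eExt]

private theorem eExt_r {n : ℕ} (L : Mat n) (i : Fin (n + 1)) : eExt L i (Fin.last n) = 0 := by
  induction i using Fin.lastCases with
  | last => exact eExt_l L _
  | cast i => simp [eExt]

private theorem rho_exp {n : ℕ} (L : Mat n) (f : Fk n) :
    rho L f = ∑ a, ∑ b, L a b • cr a (an b f) := by
  show (∑ a, ∑ b, L a b • (cr a ∘ₗ an b)) f = _
  simp only [LinearMap.sum_apply, LinearMap.smul_apply, LinearMap.comp_apply]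

private theorem rho_eExt {n : ℕ} (L : Mat n) (f : Fk n) :
    rho (eExt L) (eEmb f) = eEmb (rho L f) := by
  rw [rho_exp, rho_exp, Fin.sum_univ_castSucc]
  simp only [eExt_l, zero_smul, Finset.sum_const_zero, add_zero]
  rw [map_sum]
  refine Finset.sum_congr rfl fun a _ => ?_
  rw [Fin.sum_univ_castSucc, eExt_r, zero_smul, add_zero, map_sum]
  refine Finset.sum_congr rfl fun b _ => ?_
  rw [eExt_cc, map_smul, an_eEmb, cr_eEmb]

private theorem ip_eExt {n : ℕ} (L M : Mat n) : ip (eExt L) (eExt M) = ip L M := by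
  unfold ip
  congr 1
  rw [Fin.sum_univ_castSucc]
  simp only [eExt_l, zero_mul, Finset.sum_const_zero, add_zero]
  refine Finset.sum_congr rfl fun a _ => ?_
  rw [Fin.sum_univ_castSucc, eExt_r, zero_mul, add_zero]
  refine Finset.sum_congr rfl fun b _ => ?_
  rw [eExt_cc, eExt_cc]

private theorem skew_eExt {n : ℕ} {L : Mat n} (h : Skew L) : Skew (eExt L) := by
  intro i j
  induction i using Fin.lastCases with
  | last => rw [eExt_r, eExt_l, neg_zero]
  | cast i =>
    induction j using Fin.lastCases with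
    | last => rw [eExt_l, eExt_r, neg_zero]
    | cast j => rw [eExt_cc, eExt_cc]; exact h i j

private theorem four_eExt {n : ℕ} {f : Mat (n + 1) → ℝ} (hf : Four f) :
    Four (fun L : Mat n => f (eExt L)) := by
  obtain ⟨t, ht, h⟩ := hf
  refine ⟨fun a b c d => t a.castSucc b.castSucc c.castSucc d.castSucc,
    ⟨fun a b c d => ht.1 _ _ _ _, fun a b c d => ht.2.1 _ _ _ _, fun a b c d => ht.2.2 _ _ _ _⟩,
    fun L hL => ?_⟩
  show f (eExt L) = _
  rw [h _ (skew_eExt hL), Fin.sum_univ_castSucc]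
  simp only [eExt_l, mul_zero, zero_mul, Finset.sum_const_zero, add_zero]
  refine Finset.sum_congr rfl fun a _ => ?_
  rw [Fin.sum_univ_castSucc]
  simp only [eExt_r, mul_zero, zero_mul, Finset.sum_const_zero, add_zero]
  refine Finset.sum_congr rfl fun b _ => ?_
  rw [Fin.sum_univ_castSucc]
  simp only [eExt_l, mul_zero, Finset.sum_const_zero, add_zero]
  refine Finset.sum_congr rfl fun c _ => ?_
  rw [Fin.sum_univ_castSucc]
  simp only [eExt_r, mul_zero, add_zero]
  refine Finset.sum_congr rfl fun d _ => ?_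
  rw [eExt_cc, eExt_cc]

private theorem deg_eEmb {n p : ℕ} {f : Fk n} (h : Deg p f) : Deg (p + 1) (eEmb f) := by
  intro t ht
  rw [eEmb_apply]
  by_cases hl : Fin.last n ∈ t
  · rw [if_pos hl]
    refine h _ fun hc => ht ?_
    rw [← eUp_eDown t hl, card_eUp, hc]
  · rw [if_neg hl]

theorem bd_emb {n m p : ℕ} {C : ℝ} (h : Bd (n + 1) m (p + 1) C) : Bd n m p C := by
  intro N P hB ψ hψ
  have hB' : Bal (fun i => eExt (N i)) (fun j => eExt (P j)) :=
    ⟨fun i => skew_eExt (hB.skN i), fun j => skew_eExt (hB.skP j),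
      fun f hf => hB.bal _ (four_eExt hf)⟩
  have h1 := h _ _ hB' (eEmb ψ) (deg_eEmb hψ)
  simp only [rho_eExt, norm_eEmb, ip_eExt] at h1
  exact h1

end HopfD8
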