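import Pool.Agent.Lib.MP_4a593f_gt.D8.Defs

/-! Gamma matrices.  The relations `G8 aᵀ * G8 a = 1 = G8 a * G8 aᵀ`,
`G8 aᵀ * G8 b + G8 bᵀ * G8 a = 0 = G8 a * G8 bᵀ + G8 b * G8 aᵀ` (`a ≠ b`) of integer matrices are
`by decide` (or `fin_cases`, `Matrix.ext`, `decide` entrywise); map them to `ℝ`
(`Matrix.map_mul`, `Matrix.transpose_map`), then `Matrix.fromBlocks_multiply`. -/

open scoped BigOperators

namespace HopfD8

open HopfBig HopfN2 HopfQ4

private theorem Cl1_int1 : ∀ a b i j : Fin 8,
    ∑ k, G8 a k i * G8 b k j + ∑ k, G8 b k i * G8 a k j =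
      if a = b then (if i = j then 2 else 0) else 0 := by
  decide +kernel

private theorem Cl1_int2 : ∀ a b i j : Fin 8,
    ∑ k, G8 a i k * G8 b j k + ∑ k, G8 b i k * G8 a j k =
      if a = b then (if i = j then 2 else 0) else 0 := by
  decide +kernel

private theorem Cl1_real1 (a b : Fin 8) :
    (GR a).transpose * GR b + (GR b).transpose * GR a = if a = b then 2 else 0 := by
  ext i j
  have h := Cl1_int1 a b i j
  have h' := congrArg (Int.cast : ℤ → ℝ) h
  simp only [Matrix.add_apply, Matrix.mul_apply, Matrix.transpose_apply, GR, Matrix.map_apply]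
  push_cast at h'
  rw [h']
  by_cases hab : a = b
  · simp only [hab, if_true]
    by_cases hij : i = j
    · subst hij
      simp [Matrix.ofNat_apply]
    · simp [hij, Matrix.ofNat_apply]
  · simp [hab]

private theorem Cl1_real2 (a b : Fin 8) :
    GR a * (GR b).transpose + GR b * (GR a).transpose = if a = b then 2 else 0 := by
  ext i j
  have h := Cl1_int2 a b i j
  have h' := congrArg (Int.cast : ℤ → ℝ) h
  simp only [Matrix.add_apply, Matrix.mul_apply, Matrix.transpose_apply, GR, Matrix.map_apply]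
  push_cast at h'
  rw [h']
  by_cases hab : a = b
  · simp only [hab, if_true]
    by_cases hij : i = j
    · subst hij
      simp [Matrix.ofNat_apply]
    · simp [hij, Matrix.ofNat_apply]
  · simp [hab]

private theorem Cl1_self1 (a : Fin 8) : (GR a).transpose * GR a = 1 := by
  have h := Cl1_real1 a a
  rw [if_pos rfl, ← two_mul] at h
  have h2 : (2 : Matrix (Fin 8) (Fin 8) ℝ) * ((GR a).transpose * GR a) = 2 * 1 := by
    rw [h, mul_one]
  have h3 : (2 : ℝ) • ((GR a).transpose * GR a) = (2 : ℝ) • (1 : Matrix (Fin 8) (Fin 8) ℝ) := by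
    rw [two_smul, two_smul, ← two_mul, ← two_mul]
    exact h2
  exact smul_right_injective _ (two_ne_zero' ℝ) h3

private theorem Cl1_self2 (a : Fin 8) : GR a * (GR a).transpose = 1 := by
  have h := Cl1_real2 a a
  rw [if_pos rfl, ← two_mul] at h
  have h3 : (2 : ℝ) • (GR a * (GR a).transpose) = (2 : ℝ) • (1 : Matrix (Fin 8) (Fin 8) ℝ) := by
    rw [two_smul, two_smul, ← two_mul, ← two_mul, h, mul_one]
  exact smul_right_injective _ (two_ne_zero' ℝ) h3

private theorem Cl1_mul (a b : Fin 8) : gam a * gam b =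
    Matrix.fromBlocks (-((GR a).transpose * GR b)) 0 0 (-(GR a * (GR b).transpose)) := by
  rw [gam, gam, Matrix.fromBlocks_multiply]
  congr 1
  · simp
  · simp
  · simp
  · simp

theorem gam_sq (a : Fin 8) : gam a * gam a = -1 := by
  rw [Cl1_mul, Cl1_self1, Cl1_self2, ← Matrix.fromBlocks_one, Matrix.fromBlocks_neg, neg_zero]

theorem gam_anti {a b : Fin 8} (h : a ≠ b) : gam a * gam b = -(gam b * gam a) := by
  have h1 := Cl1_real1 a b
  have h2 := Cl1_real2 a b
  rw [if_neg h] at h1 h2
  rw [Cl1_mul, Cl1_mul, Matrix.fromBlocks_neg, eq_neg_of_add_eq_zero_left h1,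
    eq_neg_of_add_eq_zero_left h2, neg_zero]

theorem gam_tr (a : Fin 8) : (gam a).transpose = -gam a := by
  rw [gam, Matrix.fromBlocks_transpose, Matrix.fromBlocks_neg]
  simp

end HopfD8
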