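import Pool.Agent.Lib.MP_4a593f_gt.D8.Cl1

/-! Left Clifford multiplication.  `gs` is the ordered product; move `gam a` through the product:
for `a ∉ s`: `gam a * gs s = sg a s • gs (insert a s)`; for `a ∈ s`: `gam a * gs s = -(sg a s) •
gs (s.erase a)` (`sg a s = (-1)^#{b ∈ s, b < a}`, `gam_anti`, `gam_sq`).  Prove first a statement on
sorted lists by induction (e.g. `gam a * (l.map gam).prod` for a strictly sorted list `l`), or by
induction on `s` from below (`Finset.sort_insert` / `List.orderedInsert`), then sum over `s`
(`cr_apply`, `an_apply`; reindex `s ↦ insert a s`, cf. `sum_switch` in Big/G1). -/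

open scoped BigOperators

namespace HopfD8

open HopfBig HopfN2 HopfQ4

private theorem cl2_gs_insert {m : Fin 8} {t : Finset (Fin 8)} (h : ∀ b ∈ t, m < b) :
    gs (insert m t) = gam m * gs t := by
  unfold gs
  rw [Finset.sort_insert (r := (· ≤ ·)) (fun b hb => (h b hb).le)
    (fun hm => lt_irrefl _ (h m hm)), List.map_cons, List.prod_cons]

private theorem cl2_sg_min {m : Fin 8} {t : Finset (Fin 8)} (h : ∀ b ∈ t, m < b) :
    sg m t = 1 := by
  unfold sg
  rw [Finset.filter_false_of_mem (fun b hb => not_lt.mpr (h b hb).le)]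
  simp

private theorem cl2_sg_ins_self (a : Fin 8) (t : Finset (Fin 8)) :
    sg a (insert a t) = sg a t := by
  unfold sg
  rw [Finset.filter_insert, if_neg (lt_irrefl a)]

private theorem cl2_sg_ers (a : Fin 8) (s : Finset (Fin 8)) : sg a (s.erase a) = sg a s := by
  by_cases h : a ∈ s
  · have := cl2_sg_ins_self a (s.erase a)
    rw [Finset.insert_erase h] at this
    exact this.symm
  · rw [Finset.erase_eq_of_notMem h]

private theorem cl2_sg_lt {a m : Fin 8} {t : Finset (Fin 8)} (hm : m ∉ t) (h : m < a) :
    sg a (insert m t) = -sg a t := by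
  unfold sg
  rw [Finset.filter_insert, if_pos h, Finset.card_insert_of_notMem, pow_succ]
  · ring
  · exact fun hc => hm (Finset.mem_filter.mp hc).1

private theorem cl2_gam_gs (s : Finset (Fin 8)) : ∀ a : Fin 8,
    gam a * gs s = if a ∈ s then (-(sg a s)) • gs (s.erase a) else sg a s • gs (insert a s) := by
  induction s using Finset.induction_on_min with
  | empty =>
    intro a
    rw [if_neg (Finset.notMem_empty a), cl2_gs_insert (m := a) (t := ∅) (by simp),
      cl2_sg_min (by simp), one_smul]
  | insert m t hmt ih =>
    intro a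
    have hm : m ∉ t := fun h => lt_irrefl _ (hmt m h)
    rcases lt_trichotomy a m with h | h | h
    · -- below everything
      have hlt : ∀ b ∈ insert m t, a < b := by
        intro b hb
        rcases Finset.mem_insert.mp hb with rfl | hb
        · exact h
        · exact h.trans (hmt b hb)
      rw [if_neg (fun ha => lt_irrefl _ (hlt a ha)), cl2_gs_insert hlt, cl2_sg_min hlt, one_smul]
    · subst h
      rw [if_pos (Finset.mem_insert_self _ _), cl2_gs_insert hmt, ← mul_assoc, gam_sq,
        cl2_sg_ins_self, cl2_sg_min hmt, Finset.erase_insert hm, neg_one_smul, neg_one_mul]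
    · rw [cl2_gs_insert hmt, ← mul_assoc, gam_anti h.ne', Matrix.neg_mul, mul_assoc, ih a,
        cl2_sg_lt hm h]
      by_cases ha : a ∈ t
      · rw [if_pos ha, if_pos (Finset.mem_insert_of_mem ha)]
        have e : (insert m t).erase a = insert m (t.erase a) := by
          rw [Finset.erase_insert_of_ne h.ne]
        rw [e, cl2_gs_insert (fun b hb => hmt b (Finset.mem_of_mem_erase hb)),
          Matrix.mul_smul, neg_smul, neg_neg, neg_neg]
      · rw [if_neg ha, if_neg (fun hc => by
          rcases Finset.mem_insert.mp hc with h1 | h1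
          · exact h.ne' h1
          · exact ha h1)]
        have e : insert a (insert m t) = insert m (insert a t) := Finset.insert_comm a m t
        have hlt : ∀ b ∈ insert a t, m < b := by
          intro b hb
          rcases Finset.mem_insert.mp hb with rfl | hb
          · exact h
          · exact hmt b hb
        rw [e, cl2_gs_insert hlt, Matrix.mul_smul, neg_smul]

private def cl2_tog (a : Fin 8) (s : Finset (Fin 8)) : Finset (Fin 8) :=
  if a ∈ s then s.erase a else insert a s

private theorem cl2_tog_tog (a : Fin 8) (s : Finset (Fin 8)) :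
    cl2_tog a (cl2_tog a s) = s := by
  unfold cl2_tog
  by_cases h : a ∈ s
  · rw [if_pos h, if_neg (Finset.notMem_erase a s), Finset.insert_erase h]
  · rw [if_neg h, if_pos (Finset.mem_insert_self a s), Finset.erase_insert h]

theorem Th_l (a : Fin 8) (ψ : Fk 8) : Th (cr a ψ - an a ψ) = gam a * Th ψ := by
  change ∑ s, (cr a ψ - an a ψ) s • gs s = gam a * ∑ s, ψ s • gs s
  rw [Finset.mul_sum]
  refine Finset.sum_nbij' (cl2_tog a) (cl2_tog a) (fun _ _ => Finset.mem_univ _)
    (fun _ _ => Finset.mem_univ _) (fun s _ => cl2_tog_tog a s) (fun s _ => cl2_tog_tog a s) ?_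
  intro s _
  rw [Matrix.mul_smul, cl2_gam_gs, PiLp.sub_apply, cr_apply, an_apply]
  unfold cl2_tog
  by_cases h : a ∈ s
  · rw [if_pos h, if_pos h, if_pos h, if_neg (Finset.notMem_erase a s), Finset.insert_erase h,
      cl2_sg_ers, sub_zero, smul_smul, mul_comm]
  · rw [if_neg h, if_neg h, if_neg h, if_pos (Finset.mem_insert_self a s),
      Finset.erase_insert h, cl2_sg_ins_self, zero_sub, smul_smul]
    congr 1
    ring

end HopfD8
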