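import Pool.Agent.Lib.MP_4a593f_gt.D8.Cl1

/-! Transpose (reversal).  For a sorted list of length `p`:
`(γ_1 ... γ_p)ᵀ = (-1)^p γ_p ... γ_1 = (-1)^p (-1)^(p(p-1)/2) γ_1 ... γ_p` (the `γ` of distinct
indices anticommute; `List.reverse` of a list with no duplicates). -/

open scoped BigOperators

namespace HopfD8

open HopfBig HopfN2 HopfQ4

private theorem cl3_gs_insert {m : Fin 8} {t : Finset (Fin 8)} (h : ∀ b ∈ t, m < b) :
    gs (insert m t) = gam m * gs t := by
  unfold gs
  rw [Finset.sort_insert (r := (· ≤ ·)) (fun b hb => (h b hb).le)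
    (fun hm => lt_irrefl _ (h m hm)), List.map_cons, List.prod_cons]

private theorem cl3_gs_gam (t : Finset (Fin 8)) : ∀ a : Fin 8, a ∉ t →
    gs t * gam a = ((-1 : ℝ) ^ t.card) • (gam a * gs t) := by
  induction t using Finset.induction_on_min with
  | empty =>
    intro a _
    simp [gs]
  | insert m t hmt ih =>
    intro a ha
    have hm : m ∉ t := fun h => lt_irrefl _ (hmt m h)
    have ham : a ≠ m := fun h => ha (h ▸ Finset.mem_insert_self _ _)
    have hat : a ∉ t := fun h => ha (Finset.mem_insert_of_mem h)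
    rw [cl3_gs_insert hmt, mul_assoc, ih a hat, Matrix.mul_smul, ← mul_assoc, ← mul_assoc,
      gam_anti ham.symm, Matrix.neg_mul, Finset.card_insert_of_notMem hm, pow_succ, mul_neg_one,
      neg_smul, smul_neg]

private theorem cl3_pow (k : ℕ) :
    ((-1 : ℝ) ^ ((k + 1) * (k + 1 + 1) / 2)) = (-1) ^ (k * (k + 1) / 2) * (-1) ^ (k + 1) := by
  have h : (k + 1) * (k + 1 + 1) / 2 = k * (k + 1) / 2 + (k + 1) := by
    have e : (k + 1) * (k + 1 + 1) = k * (k + 1) + (k + 1) * 2 := by ring
    rw [e, Nat.add_mul_div_right _ _ (by norm_num)]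
  rw [h, pow_add]

theorem gs_tr (s : Finset (Fin 8)) :
    (gs s).transpose = ((-1 : ℝ) ^ (s.card * (s.card + 1) / 2)) • gs s := by
  induction s using Finset.induction_on_min with
  | empty => simp [gs]
  | insert m t hmt ih =>
    have hm : m ∉ t := fun h => lt_irrefl _ (hmt m h)
    rw [cl3_gs_insert hmt, Matrix.transpose_mul, ih, gam_tr, Matrix.smul_mul, Matrix.mul_neg,
      cl3_gs_gam t m hm, Finset.card_insert_of_notMem hm, cl3_pow, ← neg_smul, smul_smul]
    congr 1
    rw [pow_succ]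
    ring

theorem Th_tr {p : ℕ} {ψ : Fk 8} (hd : Deg p ψ) :
    (Th ψ).transpose = ((-1 : ℝ) ^ (p * (p + 1) / 2)) • Th ψ := by
  change (∑ s, ψ s • gs s).transpose = ((-1 : ℝ) ^ (p * (p + 1) / 2)) • ∑ s, ψ s • gs s
  rw [Matrix.transpose_sum, Finset.smul_sum]
  refine Finset.sum_congr rfl fun s _ => ?_
  rw [Matrix.transpose_smul, gs_tr, smul_comm]
  by_cases hs : s.card = p
  · rw [hs]
  · rw [hd s hs, zero_smul, smul_zero, smul_zero]

end HopfD8
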