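import Pool.Agent.Lib.MP_4a593f_gt.D8.Cl2
import Pool.Agent.Lib.MP_4a593f_gt.D8.Cl3

/-! Right multiplication and the derivation action.  `Th_r`: transpose `Th_l` (`Deg.cr`, `Deg.an` in
Big/G1 for the degrees; `p(p+1)/2` parities: `(p+1)(p+2)/2 = p(p+1)/2 + p + 1`).
`Th_rho`: with `l a = cr a - an a`, `r a = cr a + an a`: for skew `L`
`rho L = (1/4) ∑ L a b (r a (r b ·) - l a (l b ·))` (`an_cr`), and
`Th (r a (r b ψ)) = -(Th ψ * gam b * gam a)` (degrees `p ± 1`: apply `Th_r` to `cr b ψ` and `an b ψ`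
separately). -/

open scoped BigOperators

namespace HopfD8

open HopfBig HopfN2 HopfQ4

private theorem cl4_pow (p : ℕ) :
    ((-1 : ℝ) ^ ((p + 1) * (p + 1 + 1) / 2)) = (-1) ^ (p * (p + 1) / 2) * (-1) ^ (p + 1) := by
  have h : (p + 1) * (p + 1 + 1) / 2 = p * (p + 1) / 2 + (p + 1) := by
    have e : (p + 1) * (p + 1 + 1) = p * (p + 1) + (p + 1) * 2 := by ring
    rw [e, Nat.add_mul_div_right _ _ (by norm_num)]
  rw [h, pow_add]

private theorem cl4_an {p : ℕ} (a : Fin 8) {ψ : Fk 8} (hd : Deg p ψ) :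
    (Th (an a ψ)).transpose = ((-1 : ℝ) ^ (p * (p + 1) / 2) * (-1) ^ p) • Th (an a ψ) := by
  rcases p with _ | q
  · rw [Deg.an_zero hd a, map_zero, Matrix.transpose_zero, smul_zero]
  · rw [Th_tr (Deg.an hd a), cl4_pow q, mul_assoc, ← pow_add]
    have : ((-1 : ℝ) ^ (q + 1 + (q + 1))) = 1 := by
      rw [← two_mul, pow_mul]; norm_num
    rw [this, mul_one]

theorem Th_r {p : ℕ} (a : Fin 8) {ψ : Fk 8} (hd : Deg p ψ) :
    Th (cr a ψ + an a ψ) = ((-1 : ℝ) ^ p) • (Th ψ * gam a) := by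
  have h2 := congrArg Matrix.transpose (Th_l a ψ)
  rw [Matrix.transpose_mul, gam_tr, Th_tr hd, map_sub, Matrix.transpose_sub,
    Th_tr (Deg.cr hd a), cl4_an a hd, cl4_pow p, pow_succ (-1 : ℝ) p, Matrix.mul_neg,
    Matrix.smul_mul] at h2
  rw [map_add]
  ext i j
  have h3 := congrFun (congrFun h2 i) j
  simp only [Matrix.sub_apply, Matrix.neg_apply, Matrix.smul_apply, smul_eq_mul] at h3
  simp only [Matrix.add_apply, Matrix.smul_apply, smul_eq_mul]
  rcases neg_one_pow_eq_or ℝ (p * (p + 1) / 2) with h | h <;>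
    rcases neg_one_pow_eq_or ℝ p with h' | h' <;> rw [h, h'] at h3 <;> rw [h'] <;> linarith

private theorem cl4_ll (a b : Fin 8) (ψ : Fk 8) :
    Th (cr a (cr b ψ - an b ψ) - an a (cr b ψ - an b ψ)) = gam a * (gam b * Th ψ) := by
  rw [Th_l, Th_l]

private theorem cl4_rr {p : ℕ} (a b : Fin 8) {ψ : Fk 8} (hd : Deg p ψ) :
    Th (cr a (cr b ψ + an b ψ) + an a (cr b ψ + an b ψ)) = -(Th ψ * gam b * gam a) := by
  have key : ∀ {q : ℕ} {χ : Fk 8}, Deg q χ → ((-1 : ℝ) ^ q = (-1) ^ (p + 1)) →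
      Th (cr a χ + an a χ) = ((-1 : ℝ) ^ (p + 1)) • (Th χ * gam a) := by
    intro q χ h h'
    rw [Th_r a h, h']
  have h1 : Th (cr a (cr b ψ) + an a (cr b ψ)) =
      ((-1 : ℝ) ^ (p + 1)) • (Th (cr b ψ) * gam a) := key (Deg.cr hd b) rfl
  have h2 : Th (cr a (an b ψ) + an a (an b ψ)) =
      ((-1 : ℝ) ^ (p + 1)) • (Th (an b ψ) * gam a) := by
    rcases p with _ | q
    · rw [Deg.an_zero hd b]
      simp
    · refine key (Deg.an hd b) ?_
      rw [pow_succ, pow_succ]; ring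
  have e : cr a (cr b ψ + an b ψ) + an a (cr b ψ + an b ψ) =
      (cr a (cr b ψ) + an a (cr b ψ)) + (cr a (an b ψ) + an a (an b ψ)) := by
    rw [map_add, map_add]; abel
  rw [e, map_add, h1, h2, ← smul_add, ← Matrix.add_mul, ← map_add, Th_r b hd, Matrix.smul_mul,
    smul_smul, ← pow_add]
  have : ((-1 : ℝ) ^ (p + 1 + p)) = -1 := by
    rw [show p + 1 + p = 2 * p + 1 by ring, pow_succ, pow_mul]; norm_num
  rw [this, neg_one_smul]

private theorem cl4_diff (a b : Fin 8) (ψ : Fk 8) :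
    (cr a (cr b ψ + an b ψ) + an a (cr b ψ + an b ψ)) -
      (cr a (cr b ψ - an b ψ) - an a (cr b ψ - an b ψ)) =
    (2 : ℝ) • cr a (an b ψ) + (2 : ℝ) • an a (cr b ψ) := by
  simp only [map_add, map_sub, two_smul]
  abel

private theorem cl4_rho_apply (L : Mat 8) (ψ : Fk 8) :
    rho L ψ = ∑ a, ∑ b, L a b • cr a (an b ψ) := by
  change (∑ a, ∑ b, L a b • (cr a ∘ₗ an b)) ψ = _
  simp only [LinearMap.sum_apply, LinearMap.smul_apply, LinearMap.comp_apply]

private theorem cl4_four {L : Mat 8} (hL : Skew L) (ψ : Fk 8) :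
    ∑ a, ∑ b, L a b • ((cr a (cr b ψ + an b ψ) + an a (cr b ψ + an b ψ)) -
      (cr a (cr b ψ - an b ψ) - an a (cr b ψ - an b ψ))) = (4 : ℝ) • rho L ψ := by
  have h0 : ∀ a, L a a = 0 := fun a => by have := hL a a; linarith
  have h1 : ∑ a, ∑ b, L a b • an a (cr b ψ) = rho L ψ := by
    rw [cl4_rho_apply, Finset.sum_comm]
    refine Finset.sum_congr rfl fun b _ => Finset.sum_congr rfl fun a _ => ?_
    rw [an_cr, hL b a]
    by_cases hab : a = b
    · subst hab
      rw [h0]; simp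
    · rw [if_neg hab, zero_sub, smul_neg, neg_smul, neg_neg]
  have h2 : ∑ a, ∑ b, L a b • ((cr a (cr b ψ + an b ψ) + an a (cr b ψ + an b ψ)) -
      (cr a (cr b ψ - an b ψ) - an a (cr b ψ - an b ψ))) =
      (2 : ℝ) • (∑ a, ∑ b, L a b • cr a (an b ψ)) + (2 : ℝ) • ∑ a, ∑ b, L a b • an a (cr b ψ) := by
    simp only [cl4_diff, smul_add, Finset.smul_sum, Finset.sum_add_distrib]
    congr 1 <;>
    exact Finset.sum_congr rfl fun a _ => Finset.sum_congr rfl fun b _ => smul_comm _ _ _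
  rw [h2, h1, ← cl4_rho_apply, ← add_smul]
  norm_num

theorem Th_rho {p : ℕ} {L : Mat 8} (hL : Skew L) {ψ : Fk 8} (hd : Deg p ψ) :
    Th (rho L ψ) = AL L * Th ψ - Th ψ * AL L := by
  have h4 := congrArg Th (cl4_four hL ψ)
  rw [map_smul] at h4
  simp only [map_sum, map_smul, map_sub] at h4
  have e1 : ∀ a b : Fin 8, Th (cr a (cr b ψ + an b ψ) + an a (cr b ψ + an b ψ)) =
      -(Th ψ * gam b * gam a) := fun a b => cl4_rr a b hd
  have e2 : ∀ a b : Fin 8, Th (cr a (cr b ψ - an b ψ) - an a (cr b ψ - an b ψ)) =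
      gam a * (gam b * Th ψ) := fun a b => cl4_ll a b ψ
  have h5 : ∑ a, ∑ b, L a b • (-(Th ψ * gam b * gam a) - gam a * (gam b * Th ψ)) =
      (4 : ℝ) • Th (rho L ψ) := by
    have := congrArg Th (cl4_four hL ψ)
    rw [map_smul] at this
    rw [← this, map_sum]
    refine Finset.sum_congr rfl fun a _ => ?_
    rw [map_sum]
    refine Finset.sum_congr rfl fun b _ => ?_
    rw [map_smul, map_sub, e1, e2]
  set G : M16 := ∑ a, ∑ b, L a b • (gam a * gam b) with hG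
  have hG' : ∑ a, ∑ b, L a b • (gam b * gam a) = -G := by
    rw [hG, Finset.sum_comm, ← Finset.sum_neg_distrib]
    refine Finset.sum_congr rfl fun b _ => ?_
    rw [← Finset.sum_neg_distrib]
    refine Finset.sum_congr rfl fun a _ => ?_
    rw [hL b a, neg_smul]
  have hAL : AL L = (-(1 / 4 : ℝ)) • G := rfl
  have h6 : ∑ a, ∑ b, L a b • (-(Th ψ * gam b * gam a) - gam a * (gam b * Th ψ)) =
      Th ψ * G - G * Th ψ := by
    have e3 : ∑ a, ∑ b, L a b • (Th ψ * gam b * gam a) = Th ψ * -G := by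
      rw [← hG', Finset.mul_sum]
      refine Finset.sum_congr rfl fun a _ => ?_
      rw [Finset.mul_sum]
      refine Finset.sum_congr rfl fun b _ => ?_
      rw [Matrix.mul_smul, Matrix.mul_assoc]
    have e4 : ∑ a, ∑ b, L a b • (gam a * (gam b * Th ψ)) = G * Th ψ := by
      rw [hG, Finset.sum_mul]
      refine Finset.sum_congr rfl fun a _ => ?_
      rw [Finset.sum_mul]
      refine Finset.sum_congr rfl fun b _ => ?_
      rw [Matrix.smul_mul, Matrix.mul_assoc]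
    simp only [smul_sub, smul_neg, Finset.sum_sub_distrib, Finset.sum_neg_distrib]
    rw [e3, e4, Matrix.mul_neg, neg_neg]
  rw [h6] at h5
  rw [hAL, Matrix.smul_mul, Matrix.mul_smul, ← smul_sub]
  have h7 : Th (rho L ψ) = (1 / 4 : ℝ) • (Th ψ * G - G * Th ψ) := by
    rw [h5, smul_smul]; norm_num
  rw [h7, neg_smul, ← smul_neg, neg_sub]

end HopfD8
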