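import Pool.Agent.Lib.MP_4a593f_gt.D8.Cl2

/-! `AL L = -(1/2) Th (wdg L vac)`: `∑ L a b gam a gam b = Th (∑ L a b l a (l b vac))` and for skew `L`
`∑ L a b (l a (l b χ)) = 2 (wdg L χ - ctr L χ - rho L χ)` (`l = cr - an`; `wdg L = (1/2) ∑ L a b cr a cr b`,
`ctr L = (1/2) ∑ L a b an b an a`).  So `AL L * Th χ = -(1/2) Th (hop L χ - rho L χ)`.
`AL_sq`: apply it to `χ = wdg L vac`: `rho L (wdg L vac) = 0` (`rho L vac = 0`, and `[rho L, wdg L] = wdg (br L L) = 0`),
`ctr L (wdg L vac) = ip L L • vac`. -/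

open scoped BigOperators

namespace HopfD8

open HopfBig HopfN2 HopfQ4

private theorem Cl7_wdg_apply {n : ℕ} (L : Mat n) (f : Fk n) :
    wdg L f = (1 / 2 : ℝ) • ∑ a, ∑ b, L a b • cr a (cr b f) := by
  simp only [wdg, LinearMap.coe_mk, AddHom.coe_mk, LinearMap.smul_apply,
    LinearMap.sum_apply, LinearMap.comp_apply]

private theorem Cl7_ctr_apply {n : ℕ} (L : Mat n) (f : Fk n) :
    ctr L f = (1 / 2 : ℝ) • ∑ a, ∑ b, L a b • an b (an a f) := by
  simp only [ctr, LinearMap.coe_mk, AddHom.coe_mk, LinearMap.smul_apply,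
    LinearMap.sum_apply, LinearMap.comp_apply]

private theorem Cl7_rho_apply {n : ℕ} (L : Mat n) (f : Fk n) :
    rho L f = ∑ a, ∑ b, L a b • cr a (an b f) := by
  simp only [rho, LinearMap.coe_mk, AddHom.coe_mk, LinearMap.smul_apply,
    LinearMap.sum_apply, LinearMap.comp_apply]

private theorem Cl7_an_vac {n : ℕ} (a : Fin n) : an a (vac n) = 0 := by
  ext s
  rw [an_apply]
  split_ifs with h
  · rfl
  · have h1 : vac n (insert a s) = 0 := by
      unfold vac
      rw [PiLp.single_apply, if_neg (Finset.insert_ne_empty a s)]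
    rw [h1, mul_zero]
    rfl

private theorem Cl7_rho_vac {n : ℕ} (L : Mat n) : rho L (vac n) = 0 := by
  rw [Cl7_rho_apply]
  simp only [Cl7_an_vac, map_zero, smul_zero, Finset.sum_const_zero]

private theorem Cl7_ctr_vac {n : ℕ} (L : Mat n) : ctr L (vac n) = 0 := by
  rw [Cl7_ctr_apply]
  simp only [Cl7_an_vac, map_zero, smul_zero, Finset.sum_const_zero]

private theorem Cl7_rho_wdg_vac {n : ℕ} {L : Mat n} (hL : Skew L) :
    rho L (wdg L (vac n)) = 0 := by
  have h := hop_lie1 hL hL (vac n)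
  have hb : br L L = 0 := by unfold br; exact sub_self _
  have h1 : hop L (vac n) = wdg L (vac n) := by
    rw [hop_apply, Cl7_ctr_vac, sub_zero]
  have h2 : hop (0 : Mat n) (vac n) = 0 := by
    rw [hop_apply, map_zero, map_zero]; simp
  rw [Cl7_rho_vac, map_zero, sub_zero, hb, h2, h1] at h
  exact h

private theorem Cl7_sum_ite {n : ℕ} (L : Mat n) (f : Fk n) (g : Fin n → Fin n → ℝ) :
    ∑ a, ∑ b, (g a b) • (∑ c, ∑ d, L c d • ((if a = c ∧ b = d then f else 0) -
      (if a = d ∧ b = c then f else 0))) = (∑ a, ∑ b, g a b * (L a b - L b a)) • f := by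
  rw [Finset.sum_smul]
  refine Finset.sum_congr rfl fun a _ => ?_
  rw [Finset.sum_smul]
  refine Finset.sum_congr rfl fun b _ => ?_
  rw [mul_smul]
  congr 1
  have h1 : ∑ c, ∑ d, L c d • (if a = c ∧ b = d then f else 0) = L a b • f := by
    rw [Finset.sum_eq_single a, Finset.sum_eq_single b]
    · simp
    · intro d _ hd
      rw [if_neg (fun h => hd h.2.symm), smul_zero]
    · intro h; exact absurd (Finset.mem_univ _) h
    · intro c _ hc
      refine Finset.sum_eq_zero fun d _ => ?_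
      rw [if_neg (fun h => hc h.1.symm), smul_zero]
    · intro h; exact absurd (Finset.mem_univ _) h
  have h2 : ∑ c, ∑ d, L c d • (if a = d ∧ b = c then f else 0) = L b a • f := by
    rw [Finset.sum_eq_single b, Finset.sum_eq_single a]
    · simp
    · intro d _ hd
      rw [if_neg (fun h => hd h.1.symm), smul_zero]
    · intro h; exact absurd (Finset.mem_univ _) h
    · intro c _ hc
      refine Finset.sum_eq_zero fun d _ => ?_
      rw [if_neg (fun h => hc h.2.symm), smul_zero]
    · intro h; exact absurd (Finset.mem_univ _) h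
  simp only [smul_sub, Finset.sum_sub_distrib]
  rw [h1, h2, ← sub_smul]

private theorem Cl7_ctr_wdg_vac {n : ℕ} {L : Mat n} (hL : Skew L) :
    ctr L (wdg L (vac n)) = ip L L • vac n := by
  have h4 : ∀ a b c d : Fin n, an b (an a (cr c (cr d (vac n)))) =
      (if a = c ∧ b = d then vac n else 0) - (if a = d ∧ b = c then vac n else 0) := by
    intro a b c d
    rw [an_cr a c, an_cr a d, Cl7_an_vac, map_zero, sub_zero]
    rw [map_sub]
    congr 1
    · by_cases hac : a = c
      · rw [if_pos hac, an_cr b d, Cl7_an_vac, map_zero, sub_zero]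
        by_cases hbd : b = d
        · rw [if_pos hbd, if_pos ⟨hac, hbd⟩]
        · rw [if_neg hbd, if_neg (fun h => hbd h.2)]
      · rw [if_neg hac, map_zero, if_neg (fun h => hac h.1)]
    · by_cases had : a = d
      · rw [if_pos had, an_cr b c, Cl7_an_vac, map_zero, sub_zero]
        by_cases hbc : b = c
        · rw [if_pos hbc, if_pos ⟨had, hbc⟩]
        · rw [if_neg hbc, if_neg (fun h => hbc h.2)]
      · rw [if_neg had, map_zero, map_zero, if_neg (fun h => had h.1)]
  rw [Cl7_ctr_apply, Cl7_wdg_apply]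
  have h5 : ∀ a b : Fin n, an b (an a ((1 / 2 : ℝ) • ∑ c, ∑ d, L c d • cr c (cr d (vac n)))) =
      (1 / 2 : ℝ) • ∑ c, ∑ d, L c d • ((if a = c ∧ b = d then vac n else 0) -
        (if a = d ∧ b = c then vac n else 0)) := by
    intro a b
    simp only [map_smul, map_sum, h4]
  simp only [h5]
  have h6 : ∑ a, ∑ b, L a b • ((1 / 2 : ℝ) • ∑ c, ∑ d, L c d •
      ((if a = c ∧ b = d then vac n else 0) - (if a = d ∧ b = c then vac n else 0))) =
      (1 / 2 : ℝ) • ∑ a, ∑ b, L a b • (∑ c, ∑ d, L c d •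
      ((if a = c ∧ b = d then vac n else 0) - (if a = d ∧ b = c then vac n else 0))) := by
    rw [Finset.smul_sum]
    refine Finset.sum_congr rfl fun a _ => ?_
    rw [Finset.smul_sum]
    refine Finset.sum_congr rfl fun b _ => ?_
    rw [smul_comm]
  rw [h6, Cl7_sum_ite, smul_smul, smul_smul]
  congr 1
  unfold ip
  rw [Finset.mul_sum, Finset.mul_sum]
  refine Finset.sum_congr rfl fun a _ => ?_
  rw [Finset.mul_sum, Finset.mul_sum]
  refine Finset.sum_congr rfl fun b _ => ?_
  rw [hL a b]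
  ring

private theorem Cl7_key {n : ℕ} {L : Mat n} (hL : Skew L) (χ : Fk n) :
    ∑ a, ∑ b, L a b • (cr a (cr b χ - an b χ) - an a (cr b χ - an b χ)) =
      (2 : ℝ) • (wdg L χ - ctr L χ - rho L χ) := by
  have h1 : ∑ a, ∑ b, L a b • cr a (cr b χ) = (2 : ℝ) • wdg L χ := by
    rw [Cl7_wdg_apply, smul_smul]; norm_num
  have h2 : ∑ a, ∑ b, L a b • an a (an b χ) = -((2 : ℝ) • ctr L χ) := by
    rw [Cl7_ctr_apply, smul_smul, show (2 : ℝ) * (1 / 2) = 1 by norm_num, one_smul,
      ← Finset.sum_neg_distrib]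
    refine Finset.sum_congr rfl fun a _ => ?_
    rw [← Finset.sum_neg_distrib]
    refine Finset.sum_congr rfl fun b _ => ?_
    rw [an_an a b, smul_neg]
  have h3 : ∑ a, ∑ b, L a b • cr a (an b χ) = rho L χ := (Cl7_rho_apply L χ).symm
  have h4 : ∑ a, ∑ b, L a b • an a (cr b χ) = rho L χ := by
    have e1 : ∀ a b : Fin n, L a b • an a (cr b χ) = -(L a b • cr b (an a χ)) := by
      intro a b
      rw [an_cr, smul_sub]
      by_cases hab : a = b
      · have h0 : L a b = 0 := by
          subst hab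
          have := hL a a
          linarith
        rw [h0, zero_smul, zero_smul, sub_zero, neg_zero]
      · rw [if_neg hab, smul_zero, zero_sub]
    simp only [e1]
    rw [Finset.sum_comm, ← h3]
    refine Finset.sum_congr rfl fun a _ => Finset.sum_congr rfl fun b _ => ?_
    rw [hL a b, neg_smul, neg_neg]
  have h5 : ∀ a b : Fin n, L a b • (cr a (cr b χ - an b χ) - an a (cr b χ - an b χ)) =
      L a b • cr a (cr b χ) - L a b • cr a (an b χ) - L a b • an a (cr b χ) +
        L a b • an a (an b χ) := by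
    intro a b
    rw [map_sub, map_sub, smul_sub, smul_sub, smul_sub]
    abel
  simp only [h5, Finset.sum_add_distrib, Finset.sum_sub_distrib]
  rw [h1, h2, h3, h4, smul_sub, smul_sub, two_smul ℝ (rho L χ)]
  abel

theorem Th_vac : Th (vac 8) = 1 := by
  change ∑ s, vac 8 s • gs s = 1
  rw [Finset.sum_eq_single ∅]
  · unfold vac gs
    rw [PiLp.single_apply, if_pos rfl, one_smul, Finset.sort_empty, List.map_nil,
      List.prod_nil]
  · intro s _ hs
    unfold vac
    rw [PiLp.single_apply, if_neg hs, zero_smul]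
  · intro h; exact absurd (Finset.mem_univ _) h

theorem AL_mul {L : Mat 8} (hL : Skew L) (χ : Fk 8) :
    AL L * Th χ = (-(1 / 2 : ℝ)) • Th (wdg L χ - ctr L χ - rho L χ) := by
  have h1 : AL L * Th χ = (-(1 / 4 : ℝ)) •
      Th (∑ a, ∑ b, L a b • (cr a (cr b χ - an b χ) - an a (cr b χ - an b χ))) := by
    unfold AL
    rw [smul_mul_assoc, Finset.sum_mul, map_sum]
    congr 1
    refine Finset.sum_congr rfl fun a _ => ?_
    rw [Finset.sum_mul, map_sum]
    refine Finset.sum_congr rfl fun b _ => ?_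
    rw [smul_mul_assoc, map_smul, mul_assoc, ← Th_l b χ, ← Th_l a]
  rw [h1, Cl7_key hL, map_smul, smul_smul]
  norm_num

theorem AL_eq {L : Mat 8} (hL : Skew L) : AL L = (-(1 / 2 : ℝ)) • Th (wdg L (vac 8)) := by
  have h := AL_mul hL (vac 8)
  rwa [Th_vac, mul_one, Cl7_ctr_vac, Cl7_rho_vac, sub_zero, sub_zero] at h

theorem AL_sq {L : Mat 8} (hL : Skew L) :
    AL L * AL L = (1 / 4 : ℝ) • Th (wdg L (wdg L (vac 8))) - ((1 / 4 : ℝ) * ip L L) • (1 : M16) := by
  have h := AL_mul hL (wdg L (vac 8))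
  rw [Cl7_rho_wdg_vac hL, Cl7_ctr_wdg_vac hL, sub_zero] at h
  have h1 : AL L * AL L = AL L * ((-(1 / 2 : ℝ)) • Th (wdg L (vac 8))) := by
    rw [← AL_eq hL]
  rw [h1, mul_smul_comm, h, map_sub, map_smul, Th_vac, smul_smul, smul_sub, smul_smul]
  congr 1
  · congr 1; norm_num
  · congr 1; ring

end HopfD8
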