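import Pool.Agent.Lib.MP_4a593f_gt.D8.Pot

/-! Diagonal case.  `br (A i) (diagonal d) k l = A i k l * (d l - d k)`.  With
`X k l = ∑_i (A i k l)² - ∑_j (B j k l)²`, `h k = 2 (d k)² - f k` (`f` from `pot`, `∑ h = 0`):
`2 (d k - d l)² = h k + h l + (f k + f l - 4 d k d l)`, `∑_l X k l = -s` for all `k` (diagonal entry of
`∑ A² - ∑ B²`, skew matrices), `0 ≤ f k + f l - 4 d k d l ≤ 2 ∑ d²` for `k ≠ l`, `X k k = 0`. -/

open scoped BigOperators

namespace HopfD8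

open HopfBig HopfN2 HopfQ4

private lemma br_diag {N : ℕ} (M : Mat N) (d : Fin N → ℝ) (k l : Fin N) :
    br M (Matrix.diagonal d) k l = M k l * (d l - d k) := by
  unfold br
  rw [Matrix.sub_apply, Matrix.mul_diagonal, Matrix.diagonal_mul]
  ring

private lemma ss_br_diag {N m : ℕ} (A : Fin m → Mat N) (d : Fin N → ℝ) :
    ∑ i, ss (br (A i) (Matrix.diagonal d)) =
      ∑ k, ∑ l, (∑ i, A i k l ^ 2) * (d l - d k) ^ 2 := by
  simp only [ss, br_diag, mul_pow]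
  rw [Finset.sum_comm]
  refine Finset.sum_congr rfl fun k _ => ?_
  rw [Finset.sum_comm]
  refine Finset.sum_congr rfl fun l _ => ?_
  rw [Finset.sum_mul]

private lemma sum_ss {N m : ℕ} (A : Fin m → Mat N) :
    ∑ i, ss (A i) = ∑ k, ∑ l, ∑ i, A i k l ^ 2 := by
  simp only [ss]
  rw [Finset.sum_comm]
  refine Finset.sum_congr rfl fun k _ => ?_
  rw [Finset.sum_comm]

private lemma diag_sq {N m : ℕ} {A : Fin m → Mat N} (hA : ∀ i, Skew (A i)) (k : Fin N) :
    (∑ i, A i * A i) k k = - ∑ l, ∑ i, A i k l ^ 2 := by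
  rw [Matrix.sum_apply, Finset.sum_comm, ← Finset.sum_neg_distrib]
  refine Finset.sum_congr rfl fun i _ => ?_
  rw [Matrix.mul_apply, ← Finset.sum_neg_distrib]
  refine Finset.sum_congr rfl fun l _ => ?_
  rw [hA i k l]
  ring

theorem matD {N m : ℕ} (hN : 4 ≤ N) {A B : Fin m → Mat N} (hA : ∀ i, Skew (A i))
    (hB : ∀ j, Skew (B j)) {s : ℝ} (h : ∑ i, A i * A i - ∑ j, B j * B j = s • (1 : Mat N))
    (d : Fin N → ℝ) :
    ∑ i, ss (br (A i) (Matrix.diagonal d)) - ∑ j, ss (br (B j) (Matrix.diagonal d)) ≤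
      (∑ i, ss (A i)) * ∑ k, d k ^ 2 := by
  obtain ⟨f, hf, hfl⟩ := pot hN d
  set D : ℝ := ∑ k, d k ^ 2 with hD
  -- row sums
  have hrow : ∀ k : Fin N, ∑ l, ((∑ i, A i k l ^ 2) - ∑ j, B j k l ^ 2) = -s := by
    intro k
    have h1 := congrFun (congrFun h k) k
    rw [Matrix.sub_apply, diag_sq hA, diag_sq hB, Matrix.smul_apply, Matrix.one_apply_eq,
      smul_eq_mul, mul_one] at h1
    rw [Finset.sum_sub_distrib]
    linarith
  have hsymm : ∀ k l : Fin N, ((∑ i, A i k l ^ 2) - ∑ j, B j k l ^ 2) =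
      ((∑ i, A i l k ^ 2) - ∑ j, B j l k ^ 2) := by
    intro k l
    congr 1
    · refine Finset.sum_congr rfl fun i _ => ?_
      rw [hA i k l]; ring
    · refine Finset.sum_congr rfl fun i _ => ?_
      rw [hB i k l]; ring
  have hzero : ∀ k : Fin N, ∀ i, A i k k = 0 := fun k i => by have := hA i k k; linarith
  have hzeroB : ∀ k : Fin N, ∀ i, B i k k = 0 := fun k i => by have := hB i k k; linarith
  -- the null part
  have hnull : ∑ k, ∑ l, ((∑ i, A i k l ^ 2) - ∑ j, B j k l ^ 2) *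
      ((2 * d k ^ 2 - f k) + (2 * d l ^ 2 - f l)) = 0 := by
    have e1 : ∑ k, ∑ l, ((∑ i, A i k l ^ 2) - ∑ j, B j k l ^ 2) * (2 * d k ^ 2 - f k) =
        -s * ∑ k, (2 * d k ^ 2 - f k) := by
      rw [Finset.mul_sum]
      refine Finset.sum_congr rfl fun k _ => ?_
      rw [← Finset.sum_mul, hrow k]
    have e2 : ∑ k, ∑ l, ((∑ i, A i k l ^ 2) - ∑ j, B j k l ^ 2) * (2 * d l ^ 2 - f l) =
        -s * ∑ k, (2 * d k ^ 2 - f k) := by
      rw [Finset.sum_comm, ← e1]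
      refine Finset.sum_congr rfl fun k _ => Finset.sum_congr rfl fun l _ => ?_
      rw [hsymm l k]
    have e3 : ∑ k, (2 * d k ^ 2 - f k) = 0 := by
      rw [Finset.sum_sub_distrib, ← Finset.mul_sum, hf]
      ring
    simp only [mul_add, Finset.sum_add_distrib]
    rw [e1, e2, e3]
    ring
  have hmain : 2 * (∑ i, ss (br (A i) (Matrix.diagonal d)) -
      ∑ j, ss (br (B j) (Matrix.diagonal d))) =
      ∑ k, ∑ l, ((∑ i, A i k l ^ 2) - ∑ j, B j k l ^ 2) *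
        (f k + f l - 4 * (d k * d l)) := by
    have hsplit : ∑ k, ∑ l, ((∑ i, A i k l ^ 2) - ∑ j, B j k l ^ 2) *
        (f k + f l - 4 * (d k * d l)) + ∑ k, ∑ l, ((∑ i, A i k l ^ 2) - ∑ j, B j k l ^ 2) *
      ((2 * d k ^ 2 - f k) + (2 * d l ^ 2 - f l)) =
        2 * (∑ k, ∑ l, (∑ i, A i k l ^ 2) * (d l - d k) ^ 2 -
          ∑ k, ∑ l, (∑ i, B i k l ^ 2) * (d l - d k) ^ 2) := by
      rw [← Finset.sum_add_distrib, ← Finset.sum_sub_distrib, Finset.mul_sum]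
      refine Finset.sum_congr rfl fun k _ => ?_
      rw [← Finset.sum_add_distrib, ← Finset.sum_sub_distrib, Finset.mul_sum]
      refine Finset.sum_congr rfl fun l _ => ?_
      ring
    rw [ss_br_diag A d, ss_br_diag B d, ← hsplit, hnull, add_zero]
  have hbound : ∑ k, ∑ l, ((∑ i, A i k l ^ 2) - ∑ j, B j k l ^ 2) *
        (f k + f l - 4 * (d k * d l)) ≤ ∑ k, ∑ l, (∑ i, A i k l ^ 2) * (2 * D) := by
    refine Finset.sum_le_sum fun k _ => Finset.sum_le_sum fun l _ => ?_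
    rcases eq_or_ne k l with rfl | hkl
    · simp only [hzero, hzeroB]
      simp
    · obtain ⟨h1, h2⟩ := hfl k l hkl
      have ha : 0 ≤ ∑ i, A i k l ^ 2 := Finset.sum_nonneg fun i _ => sq_nonneg _
      have hb : 0 ≤ ∑ j, B j k l ^ 2 := Finset.sum_nonneg fun i _ => sq_nonneg _
      nlinarith [mul_nonneg hb (sub_nonneg.2 h1), mul_nonneg ha (sub_nonneg.2 h2)]
  have hfin : ∑ k, ∑ l, (∑ i, A i k l ^ 2) * (2 * D) = 2 * ((∑ i, ss (A i)) * D) := by
    rw [sum_ss A]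
    simp only [← Finset.sum_mul]
    ring
  linarith

end HopfD8
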