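import Pool.Agent.Lib.MP_4a593f_gt.D8.PotA

/-! Potentials (checked numerically, `N ≥ 4`).  Let `U = {d ≥ 0}`, `V = {d < 0}`,
`r = ∑ d²`, `u2 = ∑_U d²`, `v2 = ∑_V d²`.
(1) `V = ∅`: `f = 2 W` with `W` from `potA` for `U`, `v = d`.  (Upper bound: `W k + W l ≤ r` by
nonnegativity and the sum, `0 ≤ d k d l`.)
(2) `|U| ≥ 2` and `|V| ≥ 2`: `f = 2 W_U` on `U`, `f = 2 W_V` on `V` (`potA` with `v = |d|`).  Same class:
lower bound from `potA`, upper bound because `W k + W l ≤ u2 ≤ r`.  Different classes: lower bound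
trivial (`d k d l ≤ 0 ≤ W`), upper bound
`W k + W l + 2|d k||d l| ≤ (u2 - d k²) + (v2 - d l²) + 2|d k||d l| = r - (|d k| - |d l|)²`.
(3) one class is a singleton `{k0}`, `x = |d k0|` (so the other class `B` has `N - 1 ≥ 3` elements;
if `U = {k0}` replace `d` by `-d`, or treat both; if `U = ∅` replace `d` by `-d`, it is case (1)):
`f k0 = 0`, `f k = 2 (W k + e k)` on `B`, with
`e k = cap k * x² / ∑ cap`, `cap k = (x - |d k|)² + (b2 - d k² - W k) ≥ 0`, `b2 = ∑_B d²`.
`∑_B cap ≥ x²` since `∑_B cap = (N-1) x² - 2 x ∑|d| + b2 + (N-3) b2` and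
`(∑_B |d|)² ≤ (N-1) b2`, `N - 1 ≤ (N-2)²`.  (If `x = 0` put `e = 0`.)
Pairs in `B`: `W k + W l + e k + e l ≤ b2 + x² = r`. -/

open scoped BigOperators

namespace HopfD8

open HopfBig HopfN2 HopfQ4

private lemma pair_le_sum {N : ℕ} (S : Finset (Fin N)) (W : Fin N → ℝ) (hW : ∀ k ∈ S, 0 ≤ W k)
    {k l : Fin N} (hk : k ∈ S) (hl : l ∈ S) (hkl : k ≠ l) : W k + W l ≤ ∑ i ∈ S, W i := by
  have h1 : ∑ i ∈ ({k, l} : Finset (Fin N)), W i ≤ ∑ i ∈ S, W i := by
    apply Finset.sum_le_sum_of_subset_of_nonneg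
    · intro i hi
      rcases Finset.mem_insert.1 hi with rfl | hi
      · exact hk
      · rw [Finset.mem_singleton] at hi
        subst hi
        exact hl
    · intro i hi _
      exact hW i hi
  rwa [Finset.sum_pair hkl] at h1

private lemma caseA {N : ℕ} (hN : 4 ≤ N) (d : Fin N → ℝ) (hd : ∀ k, 0 ≤ d k) :
    ∃ f : Fin N → ℝ, ∑ k, f k = 2 * ∑ k, d k ^ 2 ∧
      ∀ k l, k ≠ l → 4 * (d k * d l) ≤ f k + f l ∧
        f k + f l ≤ 4 * (d k * d l) + 2 * ∑ k, d k ^ 2 := by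
  obtain ⟨W, hW0, hWs, hWp, -⟩ := potA (Finset.univ : Finset (Fin N))
    (by rw [Finset.card_univ, Fintype.card_fin]; omega) d (fun k _ => hd k)
  refine ⟨fun k => 2 * W k, ?_, ?_⟩
  · rw [← Finset.mul_sum, hWs]
  · intro k l hkl
    have h1 := hWp k (Finset.mem_univ _) l (Finset.mem_univ _) hkl
    have h2 := pair_le_sum Finset.univ W hW0 (Finset.mem_univ k) (Finset.mem_univ l) hkl
    have h3 : 0 ≤ d k * d l := mul_nonneg (hd k) (hd l)
    rw [hWs] at h2
    constructor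
    · linarith
    · linarith

private lemma caseB {N : ℕ} (d : Fin N → ℝ) (S : Finset (Fin N))
    (hS : 2 ≤ S.card) (hS' : 2 ≤ Sᶜ.card) (hd : ∀ k ∈ S, 0 ≤ d k) (hd' : ∀ k ∈ Sᶜ, d k ≤ 0) :
    ∃ f : Fin N → ℝ, ∑ k, f k = 2 * ∑ k, d k ^ 2 ∧
      ∀ k l, k ≠ l → 4 * (d k * d l) ≤ f k + f l ∧
        f k + f l ≤ 4 * (d k * d l) + 2 * ∑ k, d k ^ 2 := by
  classical
  obtain ⟨W, hW0, hWs, hWp, hWu⟩ := potA S hS d hd
  obtain ⟨Z, hZ0, hZs, hZp, hZu⟩ := potA Sᶜ hS' (fun k => - d k)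
    (fun k hk => by have := hd' k hk; linarith)
  have hsum : ∀ g : Fin N → ℝ, ∑ k, g k = ∑ k ∈ S, g k + ∑ k ∈ Sᶜ, g k := fun g =>
    (Finset.sum_add_sum_compl S g).symm
  have hr := hsum (fun k => d k ^ 2)
  have hZs' : ∑ k ∈ Sᶜ, Z k = ∑ k ∈ Sᶜ, d k ^ 2 := by
    rw [hZs]
    exact Finset.sum_congr rfl (fun k _ => by ring)
  have hu0 : 0 ≤ ∑ k ∈ S, d k ^ 2 := Finset.sum_nonneg (fun k _ => sq_nonneg _)
  have hv0 : 0 ≤ ∑ k ∈ Sᶜ, d k ^ 2 := Finset.sum_nonneg (fun k _ => sq_nonneg _)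
  have hZsq : ∑ k ∈ Sᶜ, (- d k) ^ 2 = ∑ k ∈ Sᶜ, d k ^ 2 :=
    Finset.sum_congr rfl (fun k _ => by ring)
  refine ⟨fun k => if k ∈ S then 2 * W k else 2 * Z k, ?_, ?_⟩
  · rw [hsum (fun k => if k ∈ S then 2 * W k else 2 * Z k), hr]
    have e1 : ∑ k ∈ S, (if k ∈ S then 2 * W k else 2 * Z k) = 2 * ∑ k ∈ S, d k ^ 2 := by
      rw [← hWs, Finset.mul_sum]
      exact Finset.sum_congr rfl (fun k hk => by rw [if_pos hk])
    have e2 : ∑ k ∈ Sᶜ, (if k ∈ S then 2 * W k else 2 * Z k) = 2 * ∑ k ∈ Sᶜ, d k ^ 2 := by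
      rw [← hZs', Finset.mul_sum]
      exact Finset.sum_congr rfl (fun k hk => by rw [if_neg (Finset.mem_compl.1 hk)])
    rw [e1, e2]; ring
  · -- cross pairs
    have cross : ∀ k ∈ S, ∀ l ∈ Sᶜ, 4 * (d k * d l) ≤ 2 * W k + 2 * Z l ∧
        2 * W k + 2 * Z l ≤ 4 * (d k * d l) + 2 * ∑ k, d k ^ 2 := by
      intro k hk l hl
      have h1 := hW0 k hk
      have h2 := hZ0 l hl
      have h3 := hWu k hk
      have h4 := hZu l hl
      rw [hZsq] at h4
      have h5 : d k * d l ≤ 0 := mul_nonpos_of_nonneg_of_nonpos (hd k hk) (hd' l hl)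
      have h6 : 0 ≤ (d k + d l) ^ 2 := sq_nonneg _
      constructor
      · linarith
      · rw [hr]
        nlinarith [h3, h4, h6]
    intro k l hkl
    by_cases hk : k ∈ S
    · by_cases hl : l ∈ S
      · simp only [if_pos hk, if_pos hl]
        have h1 := hWp k hk l hl hkl
        have h2 := pair_le_sum S W hW0 hk hl hkl
        rw [hWs] at h2
        have h3 : 0 ≤ d k * d l := mul_nonneg (hd k hk) (hd l hl)
        rw [hr]
        constructor
        · linarith
        · linarith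
      · simp only [if_pos hk, if_neg hl]
        exact cross k hk l (Finset.mem_compl.2 hl)
    · have hk' := Finset.mem_compl.2 hk
      by_cases hl : l ∈ S
      · simp only [if_neg hk, if_pos hl]
        obtain ⟨h1, h2⟩ := cross l hl k hk'
        constructor
        · have : d k * d l = d l * d k := mul_comm _ _
          linarith
        · have : d k * d l = d l * d k := mul_comm _ _
          linarith
      · have hl' := Finset.mem_compl.2 hl
        simp only [if_neg hk, if_neg hl]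
        have h1 := hZp k hk' l hl' hkl
        have h2 := pair_le_sum Sᶜ Z hZ0 hk' hl' hkl
        rw [hZs'] at h2
        have h3 : 0 ≤ d k * d l := mul_nonneg_of_nonpos_of_nonpos (hd' k hk') (hd' l hl')
        have h4 : (-d k) * (- d l) = d k * d l := by ring
        rw [h4] at h1
        rw [hr]
        constructor
        · linarith
        · linarith

private lemma caseC {N : ℕ} (hN : 4 ≤ N) (d : Fin N → ℝ) (k0 : Fin N)
    (hd : ∀ k, k ≠ k0 → 0 ≤ d k) (hd0 : d k0 ≤ 0) :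
    ∃ f : Fin N → ℝ, ∑ k, f k = 2 * ∑ k, d k ^ 2 ∧
      ∀ k l, k ≠ l → 4 * (d k * d l) ≤ f k + f l ∧
        f k + f l ≤ 4 * (d k * d l) + 2 * ∑ k, d k ^ 2 := by
  classical
  set B : Finset (Fin N) := Finset.univ.erase k0 with hB
  have hBm : ∀ k, k ∈ B ↔ k ≠ k0 := by
    intro k
    rw [hB, Finset.mem_erase]
    exact ⟨fun h => h.1, fun h => ⟨h, Finset.mem_univ _⟩⟩
  have hBc : B.card = N - 1 := by
    rw [hB, Finset.card_erase_of_mem (Finset.mem_univ _), Finset.card_univ, Fintype.card_fin]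
  obtain ⟨W, hW0, hWs, hWp, hWu⟩ := potA B (by rw [hBc]; omega) d (fun k hk => hd k ((hBm k).1 hk))
  set x : ℝ := - d k0 with hx
  have hx0 : 0 ≤ x := by rw [hx]; linarith
  set b2 : ℝ := ∑ k ∈ B, d k ^ 2 with hb2
  have hb0 : 0 ≤ b2 := Finset.sum_nonneg (fun k _ => sq_nonneg _)
  have hsum : ∀ g : Fin N → ℝ, ∑ k, g k = g k0 + ∑ k ∈ B, g k := by
    intro g
    rw [hB]
    exact (Finset.add_sum_erase Finset.univ g (Finset.mem_univ k0)).symm
  have hr : ∑ k, d k ^ 2 = x ^ 2 + b2 := by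
    rw [hsum (fun k => d k ^ 2), hx]
    ring
  set cap : Fin N → ℝ := fun k => (x - d k) ^ 2 + (b2 - d k ^ 2 - W k) with hcap
  have hcap0 : ∀ k ∈ B, 0 ≤ cap k := by
    intro k hk
    have h1 := hWu k hk
    have h2 : 0 ≤ (x - d k) ^ 2 := sq_nonneg _
    simp only [hcap]
    linarith
  set C : ℝ := ∑ k ∈ B, cap k with hC
  have hC0 : 0 ≤ C := Finset.sum_nonneg hcap0
  set s : ℝ := ∑ k ∈ B, d k with hs
  have hNr : ((N - 1 : ℕ) : ℝ) = (N : ℝ) - 1 := by
    rw [Nat.cast_sub (by omega)]; simp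
  have hCe : C = ((N : ℝ) - 2) * x ^ 2 + x ^ 2 - 2 * x * s + ((N : ℝ) - 2) * b2 := by
    have e1 : C = ∑ k ∈ B, (x ^ 2 + b2) - 2 * x * ∑ k ∈ B, d k - ∑ k ∈ B, W k := by
      rw [hC, Finset.mul_sum, ← Finset.sum_sub_distrib, ← Finset.sum_sub_distrib]
      refine Finset.sum_congr rfl (fun k _ => ?_)
      simp only [hcap]
      ring
    rw [e1, hWs, Finset.sum_const, hBc, nsmul_eq_mul, hNr, ← hs]
    ring
  have hcs : s ^ 2 ≤ ((N : ℝ) - 1) * b2 := by
    have h := sq_sum_le_card_mul_sum_sq (s := B) (f := d)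
    rw [hBc, hNr] at h
    exact h
  have hN4 : (4 : ℝ) ≤ N := by exact_mod_cast hN
  have hCx : x ^ 2 ≤ C := by
    have h1 : 0 ≤ ((N : ℝ) - 2) * (((N : ℝ) - 2) * x ^ 2 - 2 * x * s + ((N : ℝ) - 2) * b2) := by
      have h2 : ((N : ℝ) - 1) * b2 ≤ ((N : ℝ) - 2) ^ 2 * b2 := by
        apply mul_le_mul_of_nonneg_right _ hb0
        nlinarith
      nlinarith [sq_nonneg (((N : ℝ) - 2) * x - s)]
    have h3 : 0 ≤ ((N : ℝ) - 2) * x ^ 2 - 2 * x * s + ((N : ℝ) - 2) * b2 := by
      have h4 : (0 : ℝ) < (N : ℝ) - 2 := by linarith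
      exact nonneg_of_mul_nonneg_right h1 h4
    rw [hCe]
    linarith
  set e : Fin N → ℝ := fun k => cap k * x ^ 2 / C with he
  have hx2 : 0 ≤ x ^ 2 := sq_nonneg _
  have he0 : ∀ k ∈ B, 0 ≤ e k := by
    intro k hk
    simp only [he]
    exact div_nonneg (mul_nonneg (hcap0 k hk) hx2) hC0
  have hec : ∀ k ∈ B, e k ≤ cap k := by
    intro k hk
    simp only [he]
    rcases hC0.eq_or_lt with h | h
    · rw [← h, div_zero]; exact hcap0 k hk
    · rw [div_le_iff₀ h]
      exact mul_le_mul_of_nonneg_left hCx (hcap0 k hk)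
  have hes : ∑ k ∈ B, e k = x ^ 2 := by
    simp only [he]
    rw [← Finset.sum_div, ← Finset.sum_mul, ← hC]
    rcases hC0.eq_or_lt with h | h
    · rw [← h, div_zero]
      have : x ^ 2 ≤ 0 := by rw [h]; exact hCx
      linarith
    · field_simp
  have hfB : ∀ k ∈ B, (if k = k0 then (0 : ℝ) else 2 * (W k + e k)) = 2 * (W k + e k) := by
    intro k hk
    rw [if_neg ((hBm k).1 hk)]
  refine ⟨fun k => if k = k0 then 0 else 2 * (W k + e k), ?_, ?_⟩
  · rw [hsum (fun k => if k = k0 then 0 else 2 * (W k + e k)), hr]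
    rw [Finset.sum_congr rfl hfB, ← Finset.mul_sum, Finset.sum_add_distrib, hWs, hes]
    simp
    ring
  · have cross : ∀ l, l ≠ k0 → 4 * (d k0 * d l) ≤ 2 * (W l + e l) ∧
        2 * (W l + e l) ≤ 4 * (d k0 * d l) + 2 * ∑ k, d k ^ 2 := by
      intro l hl
      have hlB := (hBm l).2 hl
      have h1 := hW0 l hlB
      have h2 := he0 l hlB
      have h3 := hec l hlB
      have h4 : 0 ≤ x * d l := mul_nonneg hx0 (hd l hl)
      have h5 : d k0 * d l = - (x * d l) := by rw [hx]; ring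
      rw [h5, hr]
      simp only [hcap] at h3
      constructor
      · linarith
      · nlinarith [h3]
    intro k l hkl
    by_cases hk : k = k0
    · have hl : l ≠ k0 := fun h => hkl (by rw [hk, h])
      simp only [if_pos hk, if_neg hl]
      obtain ⟨h1, h2⟩ := cross l hl
      rw [hk]
      constructor
      · linarith
      · linarith
    · by_cases hl : l = k0
      · simp only [if_neg hk, if_pos hl]
        obtain ⟨h1, h2⟩ := cross k hk
        rw [hl]
        have h3 : d k * d k0 = d k0 * d k := mul_comm _ _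
        constructor
        · linarith
        · linarith
      · simp only [if_neg hk, if_neg hl]
        have hkB := (hBm k).2 hk
        have hlB := (hBm l).2 hl
        have h1 := hWp k hkB l hlB hkl
        have h2 := pair_le_sum B (fun k => W k + e k)
          (fun k hk => add_nonneg (hW0 k hk) (he0 k hk)) hkB hlB hkl
        rw [Finset.sum_add_distrib, hWs, hes] at h2
        have h3 := he0 k hkB
        have h4 := he0 l hlB
        have h5 : 0 ≤ d k * d l := mul_nonneg (hd k hk) (hd l hl)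
        rw [hr]
        constructor
        · linarith
        · linarith

theorem pot {N : ℕ} (hN : 4 ≤ N) (d : Fin N → ℝ) :
    ∃ f : Fin N → ℝ, ∑ k, f k = 2 * ∑ k, d k ^ 2 ∧
      ∀ k l, k ≠ l → 4 * (d k * d l) ≤ f k + f l ∧
        f k + f l ≤ 4 * (d k * d l) + 2 * ∑ k, d k ^ 2 := by
  classical
  -- the statement is invariant under `d ↦ -d`
  have neg : (∃ f : Fin N → ℝ, ∑ k, f k = 2 * ∑ k, (- d k) ^ 2 ∧
      ∀ k l, k ≠ l → 4 * ((- d k) * (- d l)) ≤ f k + f l ∧
        f k + f l ≤ 4 * ((- d k) * (- d l)) + 2 * ∑ k, (- d k) ^ 2) →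
      ∃ f : Fin N → ℝ, ∑ k, f k = 2 * ∑ k, d k ^ 2 ∧
      ∀ k l, k ≠ l → 4 * (d k * d l) ≤ f k + f l ∧
        f k + f l ≤ 4 * (d k * d l) + 2 * ∑ k, d k ^ 2 := by
    rintro ⟨f, h1, h2⟩
    refine ⟨f, ?_, ?_⟩
    · simpa using h1
    · intro k l hkl
      simpa using h2 k l hkl
  set U : Finset (Fin N) := Finset.univ.filter (fun k => 0 ≤ d k) with hU
  have hUm : ∀ k, k ∈ U ↔ 0 ≤ d k := by intro k; rw [hU]; simp
  have hcc : U.card + Uᶜ.card = N := by
    rw [Finset.card_add_card_compl, Fintype.card_fin]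
  by_cases h0 : Uᶜ.card = 0
  · apply caseA hN d
    intro k
    rw [← hUm k]
    by_contra hk
    rw [Finset.card_eq_zero] at h0
    have : k ∈ Uᶜ := Finset.mem_compl.2 hk
    rw [h0] at this
    exact Finset.notMem_empty k this
  by_cases h1 : Uᶜ.card = 1
  · obtain ⟨k0, hk0⟩ := Finset.card_eq_one.1 h1
    have hm : ∀ k, k ∈ Uᶜ ↔ k = k0 := by intro k; rw [hk0, Finset.mem_singleton]
    apply caseC hN d k0
    · intro k hk
      rw [← hUm k]
      by_contra h
      exact hk ((hm k).1 (Finset.mem_compl.2 h))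
    · have h : k0 ∈ Uᶜ := (hm k0).2 rfl
      rw [Finset.mem_compl, hUm] at h
      exact (not_le.1 h).le
  by_cases h2 : U.card = 0
  · apply neg
    apply caseA hN (fun k => - d k)
    intro k
    rw [Finset.card_eq_zero] at h2
    have : ¬ (0 ≤ d k) := by
      rw [← hUm k, h2]
      exact Finset.notMem_empty k
    have := not_le.1 this
    linarith
  by_cases h3 : U.card = 1
  · obtain ⟨k0, hk0⟩ := Finset.card_eq_one.1 h3
    have hm : ∀ k, k ∈ U ↔ k = k0 := by intro k; rw [hk0, Finset.mem_singleton]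
    apply neg
    apply caseC hN (fun k => - d k) k0
    · intro k hk
      have : ¬ (0 ≤ d k) := by
        rw [← hUm k, hm k]
        exact hk
      have := not_le.1 this
      linarith
    · have h : k0 ∈ U := (hm k0).2 rfl
      rw [hUm] at h
      linarith
  apply caseB d U (by omega) (by omega)
  · intro k hk
    exact (hUm k).1 hk
  · intro k hk
    rw [Finset.mem_compl, hUm] at hk
    exact (not_le.1 hk).le

end HopfD8
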