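import Pool.Agent.Lib.MP_4a593f_gt.D8.Defs

/-! Class lemma.  Let `u2 = ∑_S v²` and let `k0 ∈ S` be an index with maximal `v k0 = x`.
Case `2 x² ≤ u2`: `W k = v k ^ 2`.  Case `2 x² > u2`, `X = u2 - x² > 0`: `W k0 = X`,
`W k = v k ^ 2 * x² / X` for the others (`v k ^2 ≤ X < x²`; pairs by AM-GM:
`X + v²x²/X ≥ 2 x v`; `W k + v k^2 = v k^2 (x²+X)/X ≤ x² + X`).  Case `X = 0`: `v = 0` off `k0`;
`W k0 = 0`, `W k1 = x²` for one other `k1 ∈ S`, `0` elsewhere (so `S.card ≥ 2` is used). -/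

open scoped BigOperators

namespace HopfD8

open HopfBig HopfN2 HopfQ4

theorem potA {N : ℕ} (S : Finset (Fin N)) (hS : 2 ≤ S.card) (v : Fin N → ℝ)
    (hv : ∀ k ∈ S, 0 ≤ v k) :
    ∃ W : Fin N → ℝ, (∀ k ∈ S, 0 ≤ W k) ∧ ∑ k ∈ S, W k = ∑ k ∈ S, v k ^ 2 ∧
      (∀ k ∈ S, ∀ l ∈ S, k ≠ l → 2 * (v k * v l) ≤ W k + W l) ∧
      ∀ k ∈ S, W k + v k ^ 2 ≤ ∑ k ∈ S, v k ^ 2 := by
  classical
  have hne : S.Nonempty := Finset.card_pos.mp (by omega)
  obtain ⟨k0, hk0, hmax⟩ := Finset.exists_max_image S v hne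
  obtain ⟨k1, hk1, h10⟩ : ∃ k1 ∈ S, k1 ≠ k0 := by
    have h := Finset.one_lt_card.mp (show 1 < S.card by omega)
    obtain ⟨a, ha, b, hb, hab⟩ := h
    by_cases hak : a = k0
    · exact ⟨b, hb, fun h => hab (hak.trans h.symm)⟩
    · exact ⟨a, ha, hak⟩
  have hx0 : 0 ≤ v k0 := hv k0 hk0
  have hsplit : ∑ k ∈ S, v k ^ 2 = v k0 ^ 2 + ∑ k ∈ S.erase k0, v k ^ 2 :=
    (Finset.add_sum_erase S (fun k => v k ^ 2) hk0).symm
  have hsq : ∀ k ∈ S, v k ^ 2 ≤ v k0 ^ 2 := fun k hk =>
    pow_le_pow_left₀ (hv k hk) (hmax k hk) 2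
  have hle : ∀ k ∈ S, k ≠ k0 → v k ^ 2 ≤ ∑ k ∈ S.erase k0, v k ^ 2 := fun k hk hne' =>
    Finset.single_le_sum (f := fun k => v k ^ 2) (fun i _ => sq_nonneg (v i))
      (Finset.mem_erase.mpr ⟨hne', hk⟩)
  set X : ℝ := ∑ k ∈ S.erase k0, v k ^ 2 with hX
  have hX0 : 0 ≤ X := Finset.sum_nonneg fun i _ => sq_nonneg (v i)
  by_cases hcase : 2 * v k0 ^ 2 ≤ ∑ k ∈ S, v k ^ 2
  · refine ⟨fun k => v k ^ 2, fun k _ => sq_nonneg _, rfl, fun k _ l _ _ => ?_, fun k hk => ?_⟩
    · nlinarith [sq_nonneg (v k - v l)]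
    · have := hsq k hk
      show v k ^ 2 + v k ^ 2 ≤ _
      linarith
  · push Not at hcase
    have hXlt : X < v k0 ^ 2 := by rw [hsplit] at hcase; linarith
    rcases hX0.eq_or_lt with hXe | hXp
    · -- X = 0
      have hz : ∀ k ∈ S, k ≠ k0 → v k = 0 := by
        intro k hk hne'
        have h1 := hle k hk hne'
        rw [← hXe] at h1
        exact pow_eq_zero_iff (two_ne_zero) |>.mp (le_antisymm h1 (sq_nonneg _))
      refine ⟨fun k => if k = k1 then v k0 ^ 2 else 0, fun k _ => ?_, ?_, fun k hk l hl hkl => ?_,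
        fun k hk => ?_⟩
      · show 0 ≤ (if k = k1 then v k0 ^ 2 else 0)
        split_ifs
        · exact sq_nonneg _
        · exact le_rfl
      · rw [Finset.sum_ite_eq' S k1, if_pos hk1, hsplit, ← hXe, add_zero]
      · have hp : v k * v l = 0 := by
          by_cases hkk : k = k0
          · have : l ≠ k0 := fun h => hkl (hkk.trans h.symm)
            rw [hz l hl this, mul_zero]
          · rw [hz k hk hkk, zero_mul]
        rw [hp, mul_zero]
        have hnn : ∀ j : Fin N, 0 ≤ (if j = k1 then v k0 ^ 2 else 0) := by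
          intro j
          split_ifs
          · exact sq_nonneg _
          · exact le_rfl
        exact add_nonneg (hnn k) (hnn l)
      · show (if k = k1 then v k0 ^ 2 else 0) + v k ^ 2 ≤ _
        rw [hsplit, ← hXe, add_zero]
        by_cases h1 : k = k1
        · rw [if_pos h1, h1, hz k1 hk1 h10]
          simp
        · rw [if_neg h1, zero_add]
          exact hsq k hk
    · -- X > 0
      have hr1 : 1 ≤ v k0 ^ 2 / X := by
        rw [le_div_iff₀ hXp]; linarith
      have hr0 : 0 ≤ v k0 ^ 2 / X := by linarith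
      refine ⟨fun k => if k = k0 then X else v k ^ 2 * (v k0 ^ 2 / X), fun k _ => ?_, ?_,
        fun k hk l hl hkl => ?_, fun k hk => ?_⟩
      · show 0 ≤ (if k = k0 then X else v k ^ 2 * (v k0 ^ 2 / X))
        split_ifs
        · exact hX0
        · exact mul_nonneg (sq_nonneg _) hr0
      · rw [← Finset.add_sum_erase S _ hk0, if_pos rfl]
        have : ∑ x ∈ S.erase k0, (if x = k0 then X else v x ^ 2 * (v k0 ^ 2 / X))
            = ∑ x ∈ S.erase k0, v x ^ 2 * (v k0 ^ 2 / X) := by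
          apply Finset.sum_congr rfl
          intro x hx
          rw [if_neg (Finset.ne_of_mem_erase hx)]
        rw [this, ← Finset.sum_mul, ← hX, hsplit, mul_div_cancel₀ _ hXp.ne']
        ring
      · show 2 * (v k * v l) ≤ (if k = k0 then X else v k ^ 2 * (v k0 ^ 2 / X))
          + (if l = k0 then X else v l ^ 2 * (v k0 ^ 2 / X))
        have hkey : ∀ a : ℝ, 2 * (v k0 * a) ≤ X + a ^ 2 * (v k0 ^ 2 / X) := by
          intro a
          have h1 : X + a ^ 2 * (v k0 ^ 2 / X) - 2 * (v k0 * a) = (X - v k0 * a) ^ 2 / X := by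
            field_simp
            ring
          have h2 : 0 ≤ (X - v k0 * a) ^ 2 / X := div_nonneg (sq_nonneg _) hX0
          linarith
        by_cases hkk : k = k0
        · have hl0 : l ≠ k0 := fun h => hkl (hkk.trans h.symm)
          rw [if_pos hkk, if_neg hl0, hkk]
          exact hkey _
        · by_cases hlk : l = k0
          · rw [if_neg hkk, if_pos hlk, hlk]
            have := hkey (v k)
            linarith [mul_comm (v k) (v k0)]
          · rw [if_neg hkk, if_neg hlk]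
            have h1 : v k ^ 2 ≤ v k ^ 2 * (v k0 ^ 2 / X) := le_mul_of_one_le_right (sq_nonneg _) hr1
            have h2 : v l ^ 2 ≤ v l ^ 2 * (v k0 ^ 2 / X) := le_mul_of_one_le_right (sq_nonneg _) hr1
            nlinarith [sq_nonneg (v k - v l)]
      · show (if k = k0 then X else v k ^ 2 * (v k0 ^ 2 / X)) + v k ^ 2 ≤ _
        rw [hsplit]
        by_cases hkk : k = k0
        · rw [if_pos hkk, hkk]; linarith
        · rw [if_neg hkk]
          have h1 := hle k hk hkk
          have h2 : v k ^ 2 * (v k0 ^ 2 / X) ≤ X * (v k0 ^ 2 / X) :=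
            mul_le_mul_of_nonneg_right h1 hr0
          rw [mul_div_cancel₀ _ hXp.ne'] at h2
          linarith

end HopfD8
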